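import Mathlib
import Pool.Agent.BH.Defs

/-!
# Planar multigraphs

Planarity of finite multigraphs, defined by rotation systems of genus zero.
-/

namespace BeinekeHarary

set_option autoImplicit false

/-- The darts (half-edges) of a multigraph with edge set `E` are the pairs `(e, b)`; `dflip E` sends
a dart to the other dart of the same edge. -/
def dflip (E : Type*) : Equiv.Perm (E × Bool) where
  toFun d := (d.1, !d.2)
  invFun d := (d.1, !d.2)
  left_inv d := by simp
  right_inv d := by simp

/-- A plane embedding of a multigraph, given by a rotation system of genus zero:
* `org d` is the vertex at which the dart `d` starts;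
* `rot` permutes cyclically the darts starting at each vertex (the cyclic order of the darts around
  the vertex);
* the faces are the cycles of `x ↦ rot (dflip E x)`;
* Euler's formula `V + F = E + 2 C` holds, `V`, `E`, `F`, `C` being the numbers of non-isolated
  vertices (cycles of `rot`), of edges, of faces and of connected components that have an edge. -/
structure MGraph.PlaneEmbedding {V E : Type*} (G : MGraph V E) where
  org : E × Bool → V
  ends_eq : ∀ e, G.ends e = s(org (e, false), org (e, true))
  rot : Equiv.Perm (E × Bool)
  rot_iff : ∀ x y, rot.SameCycle x y ↔ org x = org y
  euler : Nat.card (Quot fun x y => rot x = y) + Nat.card (Quot fun x y => rot (dflip E x) = y)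
    = Nat.card E + 2 * Nat.card (Quot fun x y => rot x = y ∨ dflip E x = y)

/-- A multigraph is planar if it has a plane embedding. -/
def MGraph.IsPlanar {V E : Type*} (G : MGraph V E) : Prop := Nonempty G.PlaneEmbedding

end BeinekeHarary
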