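import Mathlib
import Pool.Agent.Lib.MP_3940ed_co.PlaneDefs

/-!
# Exactness of closed cochains on the sphere
-/

namespace BHPlanar

set_option autoImplicit false
set_option linter.unusedSectionVars false
set_option linter.unusedSimpArgs false

open BeinekeHarary Classical

variable {E : Type*} [Fintype E] (σ : Equiv.Perm (E × Bool))

/-- the vertex cycles, the faces and the components -/
abbrev VQ := Quot fun x y => σ x = y
abbrev FQ := Quot fun x y => σ (dflip E x) = y
abbrev CQ := Quot fun x y => σ x = y ∨ dflip E x = y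

abbrev mkV (d : E × Bool) : VQ σ := Quot.mk _ d
abbrev mkF (d : E × Bool) : FQ σ := Quot.mk _ d
abbrev mkC (d : E × Bool) : CQ σ := Quot.mk _ d

omit [Fintype E] in
lemma dflip_dflip (d : E × Bool) : dflip E (dflip E d) = d := by simp [dflip]

omit [Fintype E] in
lemma dflip_ne (d : E × Bool) : dflip E d ≠ d := by
  intro h
  have := congrArg Prod.snd h
  simp [dflip] at this

omit [Fintype E] in
lemma mkV_rot (d : E × Bool) : mkV σ (σ d) = mkV σ d :=
  (Quot.sound (r := fun x y => σ x = y) rfl).symm

omit [Fintype E] in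
lemma mkF_face (d : E × Bool) : mkF σ (σ (dflip E d)) = mkF σ d :=
  (Quot.sound (r := fun x y => σ (dflip E x) = y) rfl).symm

omit [Fintype E] in
/-- the two sides of a dart -/
lemma mkF_rot (d : E × Bool) : mkF σ (σ d) = mkF σ (dflip E d) := by
  have := mkF_face σ (dflip E d)
  rwa [dflip_dflip] at this

noncomputable instance : Fintype (VQ σ) := Fintype.ofFinite _
noncomputable instance : Fintype (FQ σ) := Fintype.ofFinite _
noncomputable instance : Fintype (CQ σ) := Fintype.ofFinite _

/-- extension of a function on the edges to an antisymmetric function on the darts -/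
def anti (a : E → ℚ) (d : E × Bool) : ℚ := if d.2 then -a d.1 else a d.1

/-- the closedness conditions -/
noncomputable def L : (E → ℚ) × (E × Bool → ℚ) →ₗ[ℚ] (VQ σ → ℚ) × (FQ σ → ℚ) where
  toFun x := (fun v => ∑ d, if mkV σ d = v then x.2 d else 0,
    fun f => ∑ d, if mkF σ d = f then anti x.1 d + x.2 (dflip E d) else 0)
  map_add' x y := by
    ext v
    · simp only [Prod.snd_add, Pi.add_apply, Prod.mk_add_mk]
      rw [← Finset.sum_add_distrib]
      apply Finset.sum_congr rfl
      intro d _
      split_ifs <;> simp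
    · simp only [Prod.snd_add, Prod.fst_add, Pi.add_apply, Prod.mk_add_mk]
      rw [← Finset.sum_add_distrib]
      apply Finset.sum_congr rfl
      intro d _
      unfold anti
      split_ifs <;> simp <;> ring
  map_smul' c x := by
    ext v
    · simp only [Prod.smul_snd, Pi.smul_apply, Prod.smul_mk, smul_eq_mul, RingHom.id_apply]
      rw [Finset.mul_sum]
      apply Finset.sum_congr rfl
      intro d _
      split_ifs <;> simp
    · simp only [Prod.smul_snd, Prod.smul_fst, Pi.smul_apply, Prod.smul_mk, smul_eq_mul,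
        RingHom.id_apply]
      rw [Finset.mul_sum]
      apply Finset.sum_congr rfl
      intro d _
      unfold anti
      split_ifs <;> simp <;> ring

/-- the coboundary -/
noncomputable def cob : (E × Bool → ℚ) →ₗ[ℚ] (E → ℚ) × (E × Bool → ℚ) where
  toFun U := (fun e => U (e, true) - U (e, false), fun d => U (σ d) - U d)
  map_add' x y := by
    ext v
    · simp only [Pi.add_apply, Prod.mk_add_mk]; ring
    · simp only [Pi.add_apply, Prod.mk_add_mk]; ring
  map_smul' c x := by
    ext v
    · simp only [Pi.smul_apply, Prod.smul_mk, smul_eq_mul, RingHom.id_apply]; ring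
    · simp only [Pi.smul_apply, Prod.smul_mk, smul_eq_mul, RingHom.id_apply]; ring

/-- functions constant on components -/
noncomputable def pre : (CQ σ → ℚ) →ₗ[ℚ] (E × Bool → ℚ) where
  toFun h d := h (mkC σ d)
  map_add' _ _ := rfl
  map_smul' _ _ := rfl

lemma mem_range_pre (U : E × Bool → ℚ) (h1 : ∀ d, U (σ d) = U d)
    (h2 : ∀ d, U (dflip E d) = U d) : U ∈ LinearMap.range (pre σ) := by
  refine ⟨Quot.lift U ?_, rfl⟩
  rintro x y (rfl | rfl)
  · exact (h1 x).symm
  · exact (h2 x).symm

lemma finrank_range_pre : Module.finrank ℚ (LinearMap.range (pre σ)) ≤ Fintype.card (CQ σ) := by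
  have h := LinearMap.finrank_range_le (pre σ)
  rwa [Module.finrank_fintype_fun_eq_card] at h

lemma anti_cob (U : E × Bool → ℚ) (d : E × Bool) :
    anti (cob σ U).1 d = U (dflip E d) - U d := by
  obtain ⟨e, b⟩ := d
  cases b <;> simp [anti, cob, dflip]

lemma sum_fiber_perm {Q : Type*} (τ : Equiv.Perm (E × Bool)) (mk : E × Bool → Q)
    (hmk : ∀ d, mk (τ d) = mk d) (g : E × Bool → ℚ) (q : Q) :
    ∑ d, (if mk d = q then g (τ d) else 0) = ∑ d, (if mk d = q then g d else 0) := by
  rw [← Equiv.sum_comp τ (fun d => if mk d = q then g d else 0)]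
  apply Finset.sum_congr rfl
  intro d _
  rw [hmk]

lemma L_cob (U : E × Bool → ℚ) : L σ (cob σ U) = 0 := by
  have hv : ∀ v, ∑ d, (if mkV σ d = v then (cob σ U).2 d else 0) = 0 := by
    intro v
    have h1 := sum_fiber_perm σ (mkV σ) (mkV_rot σ) U v
    have h2 : ∑ d, (if mkV σ d = v then (cob σ U).2 d else 0)
        = ∑ d, (if mkV σ d = v then U (σ d) else 0) - ∑ d, (if mkV σ d = v then U d else 0) := by
      rw [← Finset.sum_sub_distrib]
      apply Finset.sum_congr rfl
      intro d _
      simp only [cob, LinearMap.coe_mk, AddHom.coe_mk]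
      split_ifs <;> simp
    rw [h2, h1, sub_self]
  have hf : ∀ f, ∑ d, (if mkF σ d = f then anti (cob σ U).1 d + (cob σ U).2 (dflip E d) else 0)
      = 0 := by
    intro f
    have h1 := sum_fiber_perm ((dflip E).trans σ) (mkF σ) (mkF_face σ) U f
    have h2 : ∑ d, (if mkF σ d = f then anti (cob σ U).1 d + (cob σ U).2 (dflip E d) else 0)
        = ∑ d, (if mkF σ d = f then U (((dflip E).trans σ) d) else 0)
          - ∑ d, (if mkF σ d = f then U d else 0) := by
      rw [← Finset.sum_sub_distrib]
      apply Finset.sum_congr rfl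
      intro d _
      rw [anti_cob]
      simp only [cob, LinearMap.coe_mk, AddHom.coe_mk, Equiv.trans_apply]
      split_ifs <;> simp
    rw [h2, h1, sub_self]
  ext v
  · exact hv v
  · exact hf v

lemma finrank_ker_cob : Module.finrank ℚ (LinearMap.ker (cob σ)) ≤ Fintype.card (CQ σ) := by
  refine le_trans (Submodule.finrank_mono ?_) (finrank_range_pre σ)
  intro U hU
  rw [LinearMap.mem_ker] at hU
  apply mem_range_pre
  · intro d
    have := congrFun (congrArg Prod.snd hU) d
    simp only [cob, LinearMap.coe_mk, AddHom.coe_mk, Prod.snd_zero, Pi.zero_apply] at this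
    linarith
  · rintro ⟨e, b⟩
    have := congrFun (congrArg Prod.fst hU) e
    simp only [cob, LinearMap.coe_mk, AddHom.coe_mk, Prod.fst_zero, Pi.zero_apply] at this
    cases b
    · simp only [dflip, Equiv.coe_fn_mk, Bool.not_false]; linarith
    · simp only [dflip, Equiv.coe_fn_mk, Bool.not_true]; linarith

/-- the functional on the faces -/
noncomputable def evF : Module.Dual ℚ ((VQ σ → ℚ) × (FQ σ → ℚ)) →ₗ[ℚ] (E × Bool → ℚ) where
  toFun ξ d := ξ (0, Pi.single (mkF σ d) 1)
  map_add' _ _ := rfl
  map_smul' _ _ := rfl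

lemma L_single_edge (e : E) : L σ (Pi.single e 1, 0)
    = (0, Pi.single (mkF σ (e, false)) 1 - Pi.single (mkF σ (e, true)) 1) := by
  ext v
  · simp [L]
  · simp only [L, LinearMap.coe_mk, AddHom.coe_mk, Pi.zero_apply, add_zero, Pi.sub_apply]
    rw [← Finset.univ_product_univ, Finset.sum_product]
    rw [Finset.sum_eq_single e]
    · simp only [Fintype.sum_bool, anti, Pi.single_apply, if_true, Bool.false_eq_true, if_false]
      rw [add_comm]
      simp only [eq_comm (a := v)]
      split_ifs <;> simp
    · intro x _ hx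
      simp [anti, Pi.single_apply, hx]
    · simp

lemma L_single_dart (d : E × Bool) : L σ (0, Pi.single d 1)
    = (Pi.single (mkV σ d) 1, Pi.single (mkF σ (dflip E d)) 1) := by
  ext v
  · simp only [L, LinearMap.coe_mk, AddHom.coe_mk]
    rw [Finset.sum_eq_single d]
    · simp [Pi.single_apply, eq_comm]
    · intro x _ hx
      simp [Pi.single_apply, hx]
    · simp
  · simp only [L, LinearMap.coe_mk, AddHom.coe_mk]
    rw [Finset.sum_eq_single (dflip E d)]
    · rw [dflip_dflip]
      have h0 : anti (0 : E → ℚ) (dflip E d) = 0 := by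
        unfold anti
        split_ifs <;> simp
      rw [Pi.single_eq_same, h0, zero_add, Pi.single_apply]
      by_cases hv : mkF σ (dflip E d) = v
      · rw [if_pos hv, if_pos hv.symm]
      · rw [if_neg hv, if_neg (fun h => hv h.symm)]
    · intro x _ hx
      have : dflip E x ≠ d := by
        rintro rfl
        exact hx (dflip_dflip x).symm
      simp [Pi.single_apply, this, anti]
    · simp

lemma finrank_ann : Module.finrank ℚ (LinearMap.range (L σ)).dualAnnihilator
    ≤ Fintype.card (CQ σ) := by
  set W := (LinearMap.range (L σ)).dualAnnihilator with hW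
  have hmem : ∀ ξ ∈ W, ∀ x, ξ (L σ x) = 0 := by
    intro ξ hξ x
    exact (Submodule.mem_dualAnnihilator ξ).mp hξ _ ⟨x, rfl⟩
  have h1 : ∀ ξ ∈ W, ∀ d, ξ (0, Pi.single (mkF σ (dflip E d)) 1) = ξ (0, Pi.single (mkF σ d) 1) := by
    intro ξ hξ
    have h0 : ∀ e, ξ (0, Pi.single (mkF σ (e, false)) 1) = ξ (0, Pi.single (mkF σ (e, true)) 1) := by
      intro e
      have h2 := hmem ξ hξ (Pi.single e 1, 0)
      rw [L_single_edge] at h2
      have h3 : ((0 : VQ σ → ℚ), (Pi.single (mkF σ (e, false)) 1 - Pi.single (mkF σ (e, true)) 1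
          : FQ σ → ℚ)) = (0, Pi.single (mkF σ (e, false)) 1) - (0, Pi.single (mkF σ (e, true)) 1) := by
        simp
      rw [h3, map_sub] at h2
      linarith
    rintro ⟨e, b⟩
    cases b
    · simp only [dflip, Equiv.coe_fn_mk, Bool.not_false]; exact (h0 e).symm
    · simp only [dflip, Equiv.coe_fn_mk, Bool.not_true]; exact h0 e
  have h2 : ∀ ξ ∈ W, ∀ d, ξ (Pi.single (mkV σ d) 1, 0) = - ξ (0, Pi.single (mkF σ d) 1) := by
    intro ξ hξ d
    have h3 := hmem ξ hξ (0, Pi.single d 1)
    rw [L_single_dart] at h3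
    have h4 : ((Pi.single (mkV σ d) 1 : VQ σ → ℚ), (Pi.single (mkF σ (dflip E d)) 1 : FQ σ → ℚ))
        = (Pi.single (mkV σ d) 1, 0) + (0, Pi.single (mkF σ (dflip E d)) 1) := by simp
    rw [h4, map_add, h1 ξ hξ] at h3
    linarith
  let Φ : W →ₗ[ℚ] (E × Bool → ℚ) := (evF σ).comp W.subtype
  have hinj : Function.Injective Φ := by
    rw [← LinearMap.ker_eq_bot, LinearMap.ker_eq_bot']
    rintro ⟨ξ, hξ⟩ h
    have hF : ∀ d, ξ (0, Pi.single (mkF σ d) 1) = 0 := fun d => congrFun h d
    have hV : ∀ d, ξ (Pi.single (mkV σ d) 1, 0) = 0 := by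
      intro d; rw [h2 ξ hξ, hF]; simp
    apply Subtype.ext
    simp only [ZeroMemClass.coe_zero]
    apply LinearMap.ext
    rintro ⟨x, y⟩
    have e1 : ((x, y) : (VQ σ → ℚ) × (FQ σ → ℚ)) = (x, 0) + (0, y) := by simp
    rw [e1, map_add, LinearMap.zero_apply]
    have e2 : ξ (x, 0) = 0 := by
      have : (ξ.comp (LinearMap.inl ℚ (VQ σ → ℚ) (FQ σ → ℚ))) = 0 := by
        apply LinearMap.pi_ext'
        intro v
        obtain ⟨d, rfl⟩ := Quot.exists_rep v
        apply LinearMap.ext_ring
        simpa using hV d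
      exact congrArg (fun g => g x) this
    have e3 : ξ (0, y) = 0 := by
      have : (ξ.comp (LinearMap.inr ℚ (VQ σ → ℚ) (FQ σ → ℚ))) = 0 := by
        apply LinearMap.pi_ext'
        intro v
        obtain ⟨d, rfl⟩ := Quot.exists_rep v
        apply LinearMap.ext_ring
        simpa using hF d
      exact congrArg (fun g => g y) this
    rw [e2, e3, add_zero]
  have hrange : LinearMap.range Φ ≤ LinearMap.range (pre σ) := by
    rintro _ ⟨⟨ξ, hξ⟩, rfl⟩
    apply mem_range_pre
    · intro d
      show ξ (0, Pi.single (mkF σ (σ d)) 1) = ξ (0, Pi.single (mkF σ d) 1)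
      rw [mkF_rot, h1 ξ hξ]
    · intro d
      exact h1 ξ hξ d
  rw [← LinearMap.finrank_range_of_inj hinj]
  exact (Submodule.finrank_mono hrange).trans (finrank_range_pre σ)

/-- Closed cochains are exact on the sphere. -/
theorem range_cob (heuler : Nat.card (VQ σ) + Nat.card (FQ σ) = Nat.card E + 2 * Nat.card (CQ σ)) :
    LinearMap.range (cob σ) = LinearMap.ker (L σ) := by
  apply Submodule.eq_of_le_of_finrank_le
  · rintro _ ⟨U, rfl⟩
    exact L_cob σ U
  · simp only [Nat.card_eq_fintype_card] at heuler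
    have h1 := LinearMap.finrank_range_add_finrank_ker (cob σ)
    have h2 := LinearMap.finrank_range_add_finrank_ker (L σ)
    have h3 := Subspace.finrank_add_finrank_dualAnnihilator_eq (LinearMap.range (L σ))
    have h4 := finrank_ker_cob σ
    have h5 := finrank_ann σ
    rw [Module.finrank_fintype_fun_eq_card, Fintype.card_prod, Fintype.card_bool] at h1
    rw [Module.finrank_prod, Module.finrank_fintype_fun_eq_card, Module.finrank_fintype_fun_eq_card,
      Fintype.card_prod, Fintype.card_bool] at h2
    rw [Module.finrank_prod, Module.finrank_fintype_fun_eq_card,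
      Module.finrank_fintype_fun_eq_card] at h3
    omega

/-- Exactness in terms of functions on the darts. -/
theorem exists_potential
    (heuler : Nat.card (VQ σ) + Nat.card (FQ σ) = Nat.card E + 2 * Nat.card (CQ σ))
    (a b : E × Bool → ℚ) (ha : ∀ d, a (dflip E d) = - a d)
    (hv : ∀ v, ∑ d, (if mkV σ d = v then b d else 0) = 0)
    (hf : ∀ f, ∑ d, (if mkF σ d = f then a d + b (dflip E d) else 0) = 0) :
    ∃ U : E × Bool → ℚ, (∀ d, U (dflip E d) - U d = a d) ∧ ∀ d, U (σ d) - U d = b d := by
  have hanti : ∀ d, anti (fun e => a (e, false)) d = a d := by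
    rintro ⟨e, b⟩
    cases b
    · simp [anti]
    · have := ha (e, false)
      simp only [dflip, Equiv.coe_fn_mk, Bool.not_false] at this
      simp [anti, this]
  have hmem : ((fun e => a (e, false)), b) ∈ LinearMap.ker (L σ) := by
    rw [LinearMap.mem_ker]
    ext v
    · exact hv v
    · have := hf v
      simp only [L, LinearMap.coe_mk, AddHom.coe_mk, Prod.snd_zero, Pi.zero_apply, hanti]
      exact this
  rw [← range_cob σ heuler] at hmem
  obtain ⟨U, hU⟩ := hmem
  refine ⟨U, fun d => ?_, fun d => ?_⟩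
  · rw [← anti_cob σ U d, hU, hanti]
  · exact congrFun (congrArg Prod.snd hU) d

end BHPlanar
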