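import Mathlib

/-!
# The phase function of the word `P^p Q^q`

`X z` counts the letters `P` among the first `z` letters of the periodic word `(P^p Q^q)^∞`,
`N = p + q`.
-/

namespace BHPlanar

set_option autoImplicit false

/-- number of letters `P` among the first `z` letters of `(P^p Q^(N-p))^∞` -/
def X (p N : ℕ) (z : ℤ) : ℤ := (z / N) * p + min (z % N) p

/-- the largest `z` with `X z ≤ n` -/
def Xinv (p N : ℕ) (n : ℤ) : ℤ := (n / p) * N + n % p

/-- the largest value that a neighbour (around a vertex) of a corner with value `z` may have -/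
def next (p N : ℕ) (z : ℤ) : ℤ := Xinv p N (X p N z + 1)

variable {p N : ℕ}

lemma X_add (hN : 0 < N) (z k : ℤ) : X p N (z + N * k) = X p N z + p * k := by
  have hN' : (N : ℤ) ≠ 0 := by positivity
  unfold X
  rw [Int.add_mul_ediv_left _ _ hN', Int.add_mul_emod_self_left]
  ring

lemma Xinv_add (hp : 0 < p) (n k : ℤ) : Xinv p N (n + p * k) = Xinv p N n + N * k := by
  have hp' : (p : ℤ) ≠ 0 := by positivity
  unfold Xinv
  rw [Int.add_mul_ediv_left _ _ hp', Int.add_mul_emod_self_left]
  ring

/-- Galois connection -/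
lemma X_le_iff (hp : 0 < p) (hpN : p ≤ N) (z n : ℤ) : X p N z ≤ n ↔ z ≤ Xinv p N n := by
  have hN : 0 < N := lt_of_lt_of_le hp hpN
  have hNz : (0 : ℤ) < N := by exact_mod_cast hN
  have hpz : (0 : ℤ) < p := by exact_mod_cast hp
  have hpNz : (p : ℤ) ≤ N := by exact_mod_cast hpN
  unfold X Xinv
  set c := z / (N : ℤ) with hc
  set r := z % (N : ℤ) with hr
  have hz : z = N * c + r := (Int.mul_ediv_add_emod z N).symm
  have hr0 : 0 ≤ r := Int.emod_nonneg _ hNz.ne'
  have hrN : r < N := Int.emod_lt_of_pos _ hNz
  set e := n / (p : ℤ) with he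
  set i := n % (p : ℤ) with hi
  have hn : n = p * e + i := (Int.mul_ediv_add_emod n p).symm
  have hi0 : 0 ≤ i := Int.emod_nonneg _ hpz.ne'
  have hip : i < p := Int.emod_lt_of_pos _ hpz
  rw [hz, hn]
  constructor
  · intro h
    rcases lt_trichotomy c e with h1 | h1 | h1
    · -- c < e
      have : N * c + N ≤ e * N := by nlinarith
      nlinarith
    · rw [h1] at h ⊢
      have h2 : min r (p : ℤ) ≤ i := by nlinarith
      rcases min_le_iff.mp h2 with h3 | h3
      · nlinarith
      · omega
    · have h3 : e + 1 ≤ c := h1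
      have h4 : 0 ≤ min r (p : ℤ) := le_min hr0 hpz.le
      nlinarith
  · intro h
    rcases lt_trichotomy c e with h1 | h1 | h1
    · have h3 : c + 1 ≤ e := h1
      have h4 : min r (p : ℤ) ≤ p := min_le_right _ _
      nlinarith
    · rw [h1] at h ⊢
      have h2 : r ≤ i := by nlinarith
      have : min r (p : ℤ) ≤ i := (min_le_left _ _).trans h2
      nlinarith
    · have h3 : e + 1 ≤ c := h1
      nlinarith

lemma X_mono (hp : 0 < p) (hpN : p ≤ N) : Monotone (X p N) := by
  intro z z' h
  rw [X_le_iff hp hpN]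
  exact h.trans ((X_le_iff hp hpN _ _).mp le_rfl)

lemma Xinv_mono (hp : 0 < p) (hpN : p ≤ N) : Monotone (Xinv p N) := by
  intro n n' h
  rw [← X_le_iff hp hpN]
  exact ((X_le_iff hp hpN _ _).mpr le_rfl).trans h

lemma X_succ_le (z : ℤ) (hp : 0 < p) (hpN : p ≤ N) : X p N (z + 1) ≤ X p N z + 1 := by
  have hN : 0 < N := lt_of_lt_of_le hp hpN
  have hNz : (0 : ℤ) < N := by exact_mod_cast hN
  have hpz : (0 : ℤ) < p := by exact_mod_cast hp
  have hpNz : (p : ℤ) ≤ N := by exact_mod_cast hpN
  unfold X
  set c := z / (N : ℤ) with hc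
  set r := z % (N : ℤ) with hr
  have hz : z = N * c + r := (Int.mul_ediv_add_emod z N).symm
  have hr0 : 0 ≤ r := Int.emod_nonneg _ hNz.ne'
  have hrN : r < N := Int.emod_lt_of_pos _ hNz
  by_cases h : r + 1 < N
  · have h1 : (z + 1) / (N : ℤ) = c := by
      rw [hz, show (N : ℤ) * c + r + 1 = (r + 1) + N * c by ring,
        Int.add_mul_ediv_left _ _ hNz.ne', Int.ediv_eq_zero_of_lt (by omega) h]
      ring
    have h2 : (z + 1) % (N : ℤ) = r + 1 := by
      rw [hz, show (N : ℤ) * c + r + 1 = (r + 1) + N * c by ring,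
        Int.add_mul_emod_self_left, Int.emod_eq_of_lt (by omega) h]
    rw [h1, h2]
    have : min (r + 1) (p : ℤ) ≤ min r p + 1 := by
      rcases le_total r (p : ℤ) with h3 | h3
      · rw [min_eq_left h3]; exact min_le_left _ _
      · rw [min_eq_right h3]; exact (min_le_right _ _).trans (by omega)
    omega
  · have hr1 : r + 1 = N := by omega
    have h1 : (z + 1) / (N : ℤ) = c + 1 := by
      rw [hz, show (N : ℤ) * c + r + 1 = N * (c + 1) by rw [mul_add, ← hr1]; ring,
        Int.mul_ediv_cancel_left _ hNz.ne']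
    have h2 : (z + 1) % (N : ℤ) = 0 := by
      rw [hz, show (N : ℤ) * c + r + 1 = N * (c + 1) by rw [mul_add, ← hr1]; ring,
        Int.mul_emod_right]
    rw [h1, h2]
    have h3 : min (0 : ℤ) p = 0 := min_eq_left hpz.le
    rw [h3]
    have h4 : (p : ℤ) ≤ min r p + 1 := by
      rcases le_total r (p : ℤ) with h5 | h5
      · rw [min_eq_left h5]; omega
      · rw [min_eq_right h5]; omega
    nlinarith

/-- `X (Xinv n) = n` -/
lemma X_Xinv (hp : 0 < p) (hpN : p ≤ N) (n : ℤ) : X p N (Xinv p N n) = n := by
  apply le_antisymm ((X_le_iff hp hpN _ _).mpr le_rfl)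
  by_contra h
  push Not at h
  have h1 : X p N (Xinv p N n + 1) ≤ n := by
    have := X_succ_le (Xinv p N n) hp hpN
    omega
  rw [X_le_iff hp hpN] at h1
  omega

lemma X_next (hp : 0 < p) (hpN : p ≤ N) (z : ℤ) : X p N (next p N z) = X p N z + 1 :=
  X_Xinv hp hpN _

lemma next_mono (hp : 0 < p) (hpN : p ≤ N) : Monotone (next p N) := by
  intro z z' h
  exact Xinv_mono hp hpN (add_le_add (X_mono hp hpN h) le_rfl)

lemma next_add (hp : 0 < p) (hpN : p ≤ N) (z k : ℤ) :
    next p N (z + N * k) = next p N z + N * k := by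
  unfold next
  rw [X_add (lt_of_lt_of_le hp hpN), show X p N z + p * k + 1 = X p N z + 1 + p * k by ring,
    Xinv_add hp]

lemma le_next_iff (hp : 0 < p) (hpN : p ≤ N) (z z' : ℤ) :
    z' ≤ next p N z ↔ X p N z' ≤ X p N z + 1 := (X_le_iff hp hpN _ _).symm

lemma succ_le_next (hp : 0 < p) (hpN : p ≤ N) (z : ℤ) : z + 1 ≤ next p N z := by
  rw [le_next_iff hp hpN]
  exact X_succ_le z hp hpN

lemma next_lt (hp : 0 < p) (hpN : p ≤ N) (z : ℤ) : next p N z < z + N * 2 := by
  by_contra h
  push Not at h
  rw [le_next_iff hp hpN, X_add (lt_of_lt_of_le hp hpN)] at h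
  have : (0 : ℤ) < p := by exact_mod_cast hp
  omega

/-- one hop: `true` is a hop through a vertex, `false` a hop across an edge -/
def step (p N : ℕ) (b : Bool) (z : ℤ) : ℤ := if b then next p N z else z + 1

/-- the value after a sequence of hops -/
def T (p N : ℕ) : List Bool → ℤ → ℤ
  | [], z => z
  | b :: w, z => T p N w (step p N b z)

@[simp] lemma T_nil (z : ℤ) : T p N [] z = z := rfl

@[simp] lemma T_cons (b : Bool) (w : List Bool) (z : ℤ) :
    T p N (b :: w) z = T p N w (step p N b z) := rfl

lemma T_append (w w' : List Bool) (z : ℤ) : T p N (w ++ w') z = T p N w' (T p N w z) := by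
  induction w generalizing z with
  | nil => rfl
  | cons b w ih => simp [ih]

lemma step_mono (hp : 0 < p) (hpN : p ≤ N) (b : Bool) : Monotone (step p N b) := by
  intro z z' h
  unfold step
  split_ifs
  · exact next_mono hp hpN h
  · omega

lemma step_add (hp : 0 < p) (hpN : p ≤ N) (b : Bool) (z k : ℤ) :
    step p N b (z + N * k) = step p N b z + N * k := by
  unfold step
  split_ifs
  · exact next_add hp hpN z k
  · ring

lemma succ_le_step (hp : 0 < p) (hpN : p ≤ N) (b : Bool) (z : ℤ) : z + 1 ≤ step p N b z := by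
  unfold step
  split_ifs
  · exact succ_le_next hp hpN z
  · exact le_rfl

lemma step_lt (hp : 0 < p) (hpN : p ≤ N) (b : Bool) (z : ℤ) : step p N b z ≤ z + N * 2 := by
  unfold step
  split_ifs
  · exact (next_lt hp hpN z).le
  · have : (1 : ℤ) ≤ N := by exact_mod_cast (lt_of_lt_of_le hp hpN)
    omega

lemma T_mono (hp : 0 < p) (hpN : p ≤ N) (w : List Bool) : Monotone (T p N w) := by
  induction w with
  | nil => exact fun _ _ h => h
  | cons b w ih => exact fun _ _ h => ih (step_mono hp hpN b h)

lemma T_add (hp : 0 < p) (hpN : p ≤ N) (w : List Bool) (z k : ℤ) :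
    T p N w (z + N * k) = T p N w z + N * k := by
  induction w generalizing z with
  | nil => rfl
  | cons b w ih => simp [step_add hp hpN, ih]

lemma add_length_le_T (hp : 0 < p) (hpN : p ≤ N) (w : List Bool) (z : ℤ) :
    z + w.length ≤ T p N w z := by
  induction w generalizing z with
  | nil => simp
  | cons b w ih =>
    have h1 := ih (step p N b z)
    have h2 := succ_le_step hp hpN b z
    simp only [List.length_cons, T_cons]
    push_cast
    omega

lemma T_le (hp : 0 < p) (hpN : p ≤ N) (w : List Bool) (z : ℤ) :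
    T p N w z ≤ z + N * 2 * w.length := by
  induction w generalizing z with
  | nil => simp
  | cons b w ih =>
    have h1 := ih (step p N b z)
    have h2 := step_lt hp hpN b z
    simp only [List.length_cons, T_cons]
    push_cast
    linarith

lemma le_T (hp : 0 < p) (hpN : p ≤ N) (w : List Bool) (z : ℤ) : z ≤ T p N w z := by
  have := add_length_le_T hp hpN w z
  omega

/-- many hops through vertices give a full period -/
lemma Xinv_le_T (hp : 0 < p) (hpN : p ≤ N) (w : List Bool) (z : ℤ) (hw : 0 < w.count true) :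
    Xinv p N (X p N z + w.count true) ≤ T p N w z := by
  induction w generalizing z with
  | nil => simp at hw
  | cons b w ih =>
    cases b with
    | false =>
      simp only [List.count_cons, beq_iff_eq, Bool.false_eq_true, if_false, add_zero, T_cons] at hw ⊢
      refine le_trans ?_ (ih (step p N false z) hw)
      apply Xinv_mono hp hpN
      have : X p N z ≤ X p N (step p N false z) :=
        X_mono hp hpN (by have := succ_le_step hp hpN false z; omega)
      omega
    | true =>
      simp only [List.count_cons, beq_iff_eq, if_true, T_cons] at hw ⊢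
      have hX : X p N (step p N true z) = X p N z + 1 := by
        simp only [step, if_true]; exact X_next hp hpN z
      by_cases h0 : 0 < w.count true
      · have h1 := ih (step p N true z) h0
        rw [hX] at h1
        refine le_trans (le_of_eq ?_) h1
        congr 1
        push_cast
        ring
      · have h2 : w.count true = 0 := by omega
        rw [h2]
        have h3 := le_T hp hpN w (step p N true z)
        refine le_trans (le_of_eq ?_) h3
        simp [step, next]

lemma add_le_T_of_count (hp : 0 < p) (hpN : p ≤ N) (w : List Bool) (z : ℤ)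
    (hw : p ≤ w.count true) : z + N ≤ T p N w z := by
  refine le_trans ?_ (Xinv_le_T hp hpN w z (by omega))
  rw [← X_le_iff hp hpN]
  have h1 := X_add (p := p) (lt_of_lt_of_le hp hpN) z 1
  rw [mul_one, mul_one] at h1
  rw [h1]
  have : (p : ℤ) ≤ (w.count true : ℕ) := by exact_mod_cast hw
  omega

end BHPlanar
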