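import Mathlib
import Pool.Agent.BH.Defs
import Pool.Agent.BH.Graph
import Pool.Agent.Lib.MP_3940ed_co.Word
import Pool.Agent.Lib.MP_3940ed_co.Plane

/-!
# Walks on the faces of a plane graph: winding numbers and the gain lemma
-/

namespace BHPlanar

set_option autoImplicit false
set_option linter.unusedSectionVars false
set_option linter.unusedSimpArgs false

open BeinekeHarary Classical

section basic

variable {E : Type*} [Fintype E] (σ : Equiv.Perm (E × Bool))

/-- hops between faces: across a dart, or through a vertex from a corner to a corner -/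
abbrev Hop (E : Type*) := (E × Bool) ⊕ ((E × Bool) × (E × Bool))

/-- sides of darts and corners -/
abbrev El (E : Type*) := (E × Bool) ⊕ (E × Bool)

/-- exit element -/
def xel : Hop E → El E
  | .inl d => .inl d
  | .inr c => .inr c.1

/-- entry element -/
def yel : Hop E → El E
  | .inl d => .inl (dflip E d)
  | .inr c => .inr c.2

/-- the face of an element -/
def fc : El E → FQ σ
  | .inl d => mkF σ d
  | .inr d => mkF σ d

def src (h : Hop E) : FQ σ := fc σ (xel h)
def tgt (h : Hop E) : FQ σ := fc σ (yel h)

def kind : Hop E → Bool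
  | .inl _ => false
  | .inr _ => true

/-- the darts before and after an element -/
def lo : El E → E × Bool
  | .inl d => d
  | .inr d => σ.symm d

def hi : El E → E × Bool
  | .inl d => dflip E d
  | .inr d => d

/-- signed number of uses of an element -/
noncomputable def cnt (l : List (Hop E)) (x : El E) : ℚ :=
  (l.countP (fun h => decide (xel h = x)) : ℚ) - l.countP (fun h => decide (yel h = x))

lemma cnt_nil (x : El E) : cnt ([] : List (Hop E)) x = 0 := by simp [cnt]

lemma cnt_cons (h : Hop E) (l : List (Hop E)) (x : El E) :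
    cnt (h :: l) x = ((if xel h = x then 1 else 0) - if yel h = x then 1 else 0) + cnt l x := by
  unfold cnt
  simp only [List.countP_cons, decide_eq_true_eq]
  push_cast
  ring

lemma mem_of_cnt_ne {l : List (Hop E)} {x : El E} (h : cnt l x ≠ 0) :
    ∃ g ∈ l, xel g = x ∨ yel g = x := by
  by_contra hcon
  push Not at hcon
  apply h
  have h1 : l.countP (fun h => decide (xel h = x)) = 0 := by
    rw [List.countP_eq_zero]
    intro g hg
    simpa using (hcon g hg).1
  have h2 : l.countP (fun h => decide (yel h = x)) = 0 := by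
    rw [List.countP_eq_zero]
    intro g hg
    simpa using (hcon g hg).2
  simp [cnt, h1, h2]

/-- pairing with a function on the elements -/
lemma pairing (l : List (Hop E)) (φ : El E → ℚ) :
    ∑ x, φ x * cnt l x = (l.map fun h => φ (xel h) - φ (yel h)).sum := by
  induction l with
  | nil => simp [cnt_nil]
  | cons h l ih =>
    simp only [cnt_cons, mul_add, Finset.sum_add_distrib, ih, List.map_cons, List.sum_cons, mul_sub,
      Finset.sum_sub_distrib, mul_ite, mul_one, mul_zero, Finset.sum_ite_eq, Finset.mem_univ,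
      if_true]

lemma cnt_flip (l : List (Hop E)) (d : E × Bool) :
    cnt l (.inl (dflip E d)) = - cnt l (.inl d) := by
  induction l with
  | nil => simp [cnt_nil]
  | cons h l ih =>
    rw [cnt_cons, cnt_cons, ih]
    rcases h with d' | c
    · simp only [xel, yel, Sum.inl.injEq]
      have e1 : (d' = dflip E d) ↔ (dflip E d' = d) := by
        constructor
        · rintro rfl; exact dflip_dflip d
        · rintro rfl; exact (dflip_dflip d').symm
      have e2 : (dflip E d' = dflip E d) ↔ (d' = d) := (dflip E).injective.eq_iff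
      simp only [e1, e2]
      ring
    · simp [xel, yel]

end basic

section vertices

variable {V E : Type*} [Fintype E] {σ : Equiv.Perm (E × Bool)} {org : E × Bool → V}

lemma org_rot (hrot : ∀ x y, σ.SameCycle x y ↔ org x = org y) (d : E × Bool) :
    org (σ d) = org d := by
  rw [← hrot]
  exact ⟨-1, by simp⟩

lemma mkV_eq (hrot : ∀ x y, σ.SameCycle x y ↔ org x = org y) {x y : E × Bool}
    (h : org x = org y) : mkV σ x = mkV σ y := by
  rw [← hrot] at h
  obtain ⟨i, rfl⟩ := h
  have key : ∀ i : ℤ, mkV σ ((σ ^ i) x) = mkV σ x := by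
    intro i
    induction i using Int.induction_on with
    | zero => simp
    | succ i ih =>
      rw [show ((i : ℤ) + 1) = 1 + i by ring, zpow_add, Equiv.Perm.mul_apply, zpow_one, mkV_rot, ih]
    | pred i ih =>
      rw [← ih, ← mkV_rot σ ((σ ^ (-(i : ℤ) - 1)) x), ← Equiv.Perm.mul_apply, ← zpow_one_add]
      congr 3
      ring
  exact (key i).symm

lemma const_vertex (hrot : ∀ x y, σ.SameCycle x y ↔ org x = org y) {α : Type*}
    (U : E × Bool → α) (v : V) (hU : ∀ d, org d = v → U (σ d) = U d) {x y : E × Bool}
    (hx : org x = v) (hy : org y = v) : U x = U y := by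
  have h : σ.SameCycle x y := by rw [hrot, hx, hy]
  obtain ⟨i, rfl⟩ := h
  have hinv : ∀ d, org (σ d) = org d := org_rot hrot
  have key : ∀ i : ℤ, U ((σ ^ i) x) = U x ∧ org ((σ ^ i) x) = v := by
    intro i
    induction i using Int.induction_on with
    | zero => exact ⟨by simp, by simpa using hx⟩
    | succ i ih =>
      rw [show ((i : ℤ) + 1) = 1 + i by ring, zpow_add, Equiv.Perm.mul_apply, zpow_one, hinv,
        hU _ ih.2]
      exact ih
    | pred i ih =>
      have e : (σ ^ (-(i : ℤ))) x = σ ((σ ^ (-(i : ℤ) - 1)) x) := by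
        rw [← Equiv.Perm.mul_apply, ← zpow_one_add]
        congr 2
        ring
      have h2 : org ((σ ^ (-(i : ℤ) - 1)) x) = v := by
        rw [← hinv, ← e]; exact ih.2
      refine ⟨?_, h2⟩
      rw [← hU _ h2, ← e]
      exact ih.1
  exact (key i).1.symm

end vertices

section walks

variable {V E : Type*} [Fintype E] (σ : Equiv.Perm (E × Bool)) (org : E × Bool → V) (s t : V)

/-- admissible hops: a hop through a vertex avoids `s` and `t` -/
def ok : Hop E → Prop
  | .inl _ => True
  | .inr c => org c.1 = org c.2 ∧ org c.1 ≠ s ∧ org c.1 ≠ t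

/-- walks on the faces -/
def IsWalk : List (Hop E) → FQ σ → FQ σ → Prop
  | [], f, f' => f = f'
  | h :: l, f, f' => ok org s t h ∧ src σ h = f ∧ IsWalk l (tgt σ h) f'

variable {σ org s t}

lemma IsWalk.append {l l' : List (Hop E)} {f f' f'' : FQ σ} (h : IsWalk σ org s t l f f')
    (h' : IsWalk σ org s t l' f' f'') : IsWalk σ org s t (l ++ l') f f'' := by
  induction l generalizing f with
  | nil =>
    have : f = f' := h
    subst this
    exact h'
  | cons a l ih =>
    obtain ⟨h1, h2, h3⟩ := h
    exact ⟨h1, h2, ih h3⟩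

lemma IsWalk.split {l l' : List (Hop E)} {f f'' : FQ σ}
    (h : IsWalk σ org s t (l ++ l') f f'') :
    ∃ f', IsWalk σ org s t l f f' ∧ IsWalk σ org s t l' f' f'' := by
  induction l generalizing f with
  | nil => exact ⟨f, rfl, h⟩
  | cons a l ih =>
    obtain ⟨h1, h2, h3⟩ := h
    obtain ⟨f', h4, h5⟩ := ih h3
    exact ⟨f', ⟨h1, h2, h4⟩, h5⟩

lemma IsWalk.ok {l : List (Hop E)} {f f' : FQ σ} (h : IsWalk σ org s t l f f') :
    ∀ g ∈ l, BHPlanar.ok org s t g := by
  induction l generalizing f with
  | nil => simp
  | cons a l ih =>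
    obtain ⟨h1, h2, h3⟩ := h
    intro g hg
    rcases List.mem_cons.mp hg with rfl | hg
    · exact h1
    · exact ih h3 g hg

lemma IsWalk.map_eq {l : List (Hop E)} {f f' : FQ σ} (h : IsWalk σ org s t l f f') :
    f :: l.map (tgt σ) = l.map (src σ) ++ [f'] := by
  induction l generalizing f with
  | nil =>
    have : f = f' := h
    simp [this]
  | cons a l ih =>
    obtain ⟨h1, h2, h3⟩ := h
    simp only [List.map_cons, List.cons_append]
    rw [ih h3, h2]

lemma IsWalk.perm {l : List (Hop E)} {f : FQ σ} (h : IsWalk σ org s t l f f) :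
    (l.map (tgt σ)).Perm (l.map (src σ)) := by
  have h1 := h.map_eq
  have h2 : (f :: l.map (tgt σ)).Perm (f :: l.map (src σ)) := by
    rw [h1]
    exact List.perm_append_singleton f _
  exact List.Perm.cons_inv h2

lemma IsWalk.sum_eq {l : List (Hop E)} {f f' : FQ σ} (h : IsWalk σ org s t l f f')
    (F : FQ σ → ℚ) : (l.map fun g => F (src σ g) - F (tgt σ g)).sum = F f - F f' := by
  induction l generalizing f with
  | nil =>
    have : f = f' := h
    simp [this]
  | cons a l ih =>
    obtain ⟨h1, h2, h3⟩ := h
    simp only [List.map_cons, List.sum_cons]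
    rw [ih h3, h2]
    ring

/-- voltages -/
def volt (w ψ : E × Bool → ℤ) : Hop E → ℤ
  | .inl d => w d
  | .inr c => ψ c.2 - ψ c.1

/-- total voltage of a list of hops -/
def tvolt (w ψ : E × Bool → ℤ) (l : List (Hop E)) : ℤ := (l.map (volt w ψ)).sum

lemma tvolt_append (w ψ : E × Bool → ℤ) (l l' : List (Hop E)) :
    tvolt w ψ (l ++ l') = tvolt w ψ l + tvolt w ψ l' := by
  simp [tvolt]

lemma tvolt_cons (w ψ : E × Bool → ℤ) (h : Hop E) (l : List (Hop E)) :
    tvolt w ψ (h :: l) = volt w ψ h + tvolt w ψ l := by
  simp [tvolt]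

end walks

end BHPlanar
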