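import Mathlib
import Pool.Agent.Lib.MP_3940ed_co.Hop

/-!
# The gain lemma for closed walks on the faces of a plane graph
-/

namespace BHPlanar

set_option autoImplicit false
set_option linter.unusedSectionVars false
set_option linter.unusedSimpArgs false
set_option linter.unusedVariables false

open BeinekeHarary Classical

variable {V E : Type*} [Fintype E] {σ : Equiv.Perm (E × Bool)} {org : E × Bool → V} {s t : V}
  {w ψ : E × Bool → ℤ}

/-- vertex sums vanish -/
lemma cnt_vertex (hrot : ∀ x y, σ.SameCycle x y ↔ org x = org y) {l : List (Hop E)} {f f' : FQ σ}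
    (h : IsWalk σ org s t l f f') (v : VQ σ) :
    ∑ d, (if mkV σ d = v then cnt l (.inr (σ d)) else 0) = 0 := by
  rw [sum_fiber_perm σ (mkV σ) (mkV_rot σ) (fun d => cnt l (.inr d)) v]
  have h1 := pairing l (fun x => match x with
    | .inl _ => 0
    | .inr d => if mkV σ d = v then 1 else 0)
  rw [Fintype.sum_sum_type] at h1
  simp only [zero_mul, Finset.sum_const_zero, zero_add, ite_mul, one_mul] at h1
  rw [h1]
  apply List.sum_eq_zero
  intro y hy
  obtain ⟨g, hg, rfl⟩ := List.mem_map.mp hy
  have hok := h.ok g hg
  rcases g with d | c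
  · simp [xel, yel]
  · have h2 : mkV σ c.1 = mkV σ c.2 := mkV_eq hrot hok.1
    simp [xel, yel, h2]

/-- face sums vanish -/
lemma cnt_face {l : List (Hop E)} {f0 : FQ σ}
    (h : IsWalk σ org s t l f0 f0) (f : FQ σ) :
    ∑ d, (if mkF σ d = f then cnt l (.inl d) + cnt l (.inr (σ (dflip E d))) else 0) = 0 := by
  have h0 : ∑ d, (if mkF σ d = f then cnt l (.inl d) + cnt l (.inr (σ (dflip E d))) else 0)
      = ∑ d, (if mkF σ d = f then cnt l (.inl d) else 0)
        + ∑ d, (if mkF σ d = f then cnt l (.inr (((dflip E).trans σ) d)) else 0) := by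
    rw [← Finset.sum_add_distrib]
    apply Finset.sum_congr rfl
    intro d _
    split_ifs <;> simp
  rw [h0, sum_fiber_perm ((dflip E).trans σ) (mkF σ) (mkF_face σ) (fun d => cnt l (.inr d)) f]
  have h1 := pairing l (fun x => if fc σ x = f then 1 else 0)
  rw [Fintype.sum_sum_type] at h1
  simp only [ite_mul, one_mul, zero_mul] at h1
  have h2 := h.sum_eq (fun g => if g = f then 1 else 0)
  rw [sub_self] at h2
  have h3 : (l.map fun g => ((if fc σ (xel g) = f then (1 : ℚ) else 0)
      - if fc σ (yel g) = f then 1 else 0)).sum = 0 := h2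
  rw [h3] at h1
  exact h1

/-- the winding number is a potential difference -/
theorem winding
    (heuler : Nat.card (VQ σ) + Nat.card (FQ σ) = Nat.card E + 2 * Nat.card (CQ σ))
    (hrot : ∀ x y, σ.SameCycle x y ↔ org x = org y) (hst : s ≠ t)
    (hw : ∀ d, w (dflip E d) = - w d)
    (hdiv : ∀ v, ∑ d, (if org d = v then w d else 0)
      = (if v = s then 1 else 0) - if v = t then 1 else 0)
    (hψ : ∀ d, ψ (σ d) - ψ d = if org d = s ∨ org d = t then 0 else w d)
    {l : List (Hop E)} {f : FQ σ} (h : IsWalk σ org s t l f f) :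
    ∃ U : E × Bool → ℚ, (∀ x : El E, cnt l x = U (hi x) - U (lo σ x)) ∧
      ∀ ds dt, org ds = s → org dt = t → (tvolt w ψ l : ℚ) = U dt - U ds := by
  obtain ⟨U, hU1, hU2⟩ := exists_potential σ heuler (fun d => cnt l (.inl d))
    (fun d => cnt l (.inr (σ d))) (cnt_flip l) (cnt_vertex hrot h) (cnt_face h)
  have hU1' : ∀ d, cnt l (.inl d) = U (dflip E d) - U d := fun d => (hU1 d).symm
  have hU2' : ∀ d, cnt l (.inr (σ d)) = U (σ d) - U d := fun d => (hU2 d).symm
  refine ⟨U, ?_, ?_⟩
  · rintro (d | d)
    · exact hU1' d
    · have := hU2' (σ.symm d)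
      rw [Equiv.apply_symm_apply] at this
      exact this
  intro ds dt hds hdt
  have hinv : ∀ d, org (σ d) = org d := org_rot hrot
  -- no hops at s and t
  have hnone : ∀ d, org d = s ∨ org d = t → cnt l (.inr d) = 0 := by
    intro d hd
    by_contra hne
    obtain ⟨g, hg, hx⟩ := mem_of_cnt_ne hne
    have hok := h.ok g hg
    rcases g with d' | c
    · simp [xel, yel] at hx
    · simp only [xel, yel, Sum.inr.injEq] at hx
      obtain ⟨h1, h2, h3⟩ := hok
      rcases hx with rfl | rfl
      · rcases hd with hd | hd
        · exact h2 hd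
        · exact h3 hd
      · rw [h1] at h2 h3
        rcases hd with hd | hd
        · exact h2 hd
        · exact h3 hd
  have hUs : ∀ d, org d = s → U d = U ds := by
    intro d hd
    apply const_vertex hrot U s _ hd hds
    intro d' hd'
    have h1 := hU2' d'
    rw [hnone _ (Or.inl (by rw [hinv, hd']))] at h1
    linarith
  have hUt : ∀ d, org d = t → U d = U dt := by
    intro d hd
    apply const_vertex hrot U t _ hd hdt
    intro d' hd'
    have h1 := hU2' d'
    rw [hnone _ (Or.inr (by rw [hinv, hd']))] at h1
    linarith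
  -- the voltage as a pairing
  have hp := pairing l (fun x => match x with
    | .inl d => (w d : ℚ) / 2
    | .inr d => -(ψ d : ℚ))
  have hv : (l.map fun g => ((fun x : El E => match x with
      | .inl d => (w d : ℚ) / 2
      | .inr d => -(ψ d : ℚ)) (xel g) - (fun x : El E => match x with
      | .inl d => (w d : ℚ) / 2
      | .inr d => -(ψ d : ℚ)) (yel g))).sum = (tvolt w ψ l : ℚ) := by
    unfold tvolt
    rw [Int.cast_list_sum, List.map_map]
    congr 1
    apply List.map_congr_left
    intro g _
    rcases g with d | c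
    · simp only [xel, yel, Function.comp_apply, volt, hw]
      push_cast
      ring
    · simp only [xel, yel, Function.comp_apply, volt]
      push_cast
      ring
  rw [hv, Fintype.sum_sum_type] at hp
  simp only at hp
  -- first sum
  have hs1 : ∑ d, (w d : ℚ) / 2 * cnt l (.inl d) = - ∑ d, (w d : ℚ) * U d := by
    have e1 : ∑ d, (w d : ℚ) / 2 * U (dflip E d) = - ∑ d, (w d : ℚ) / 2 * U d := by
      rw [← Equiv.sum_comp (dflip E) (fun d => (w d : ℚ) / 2 * U d), ← Finset.sum_neg_distrib]
      apply Finset.sum_congr rfl
      intro d _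
      rw [hw]
      push_cast
      ring
    have e2 : ∑ d, (w d : ℚ) / 2 * cnt l (.inl d)
        = ∑ d, (w d : ℚ) / 2 * U (dflip E d) - ∑ d, (w d : ℚ) / 2 * U d := by
      rw [← Finset.sum_sub_distrib]
      apply Finset.sum_congr rfl
      intro d _
      rw [hU1']
      ring
    rw [e2, e1, ← Finset.sum_neg_distrib, ← Finset.sum_neg_distrib, ← Finset.sum_sub_distrib]
    apply Finset.sum_congr rfl
    intro d _
    ring
  have hs2 : ∑ d, -(ψ d : ℚ) * cnt l (.inr d)
      = ∑ d, ((ψ (σ d) : ℚ) - ψ d) * U d := by
    rw [← Equiv.sum_comp σ (fun d => -(ψ d : ℚ) * cnt l (.inr d))]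
    have e2 : ∑ d, -(ψ (σ d) : ℚ) * cnt l (.inr (σ d))
        = ∑ d, (ψ (σ d) : ℚ) * U d - ∑ d, (ψ (σ d) : ℚ) * U (σ d) := by
      rw [← Finset.sum_sub_distrib]
      apply Finset.sum_congr rfl
      intro d _
      rw [hU2']
      ring
    rw [e2, Equiv.sum_comp σ (fun d => (ψ d : ℚ) * U d), ← Finset.sum_sub_distrib]
    apply Finset.sum_congr rfl
    intro d _
    ring
  rw [hs1, hs2] at hp
  have hdiv' : ∀ v, ∑ d, (if org d = v then (w d : ℚ) else 0)
      = (if v = s then 1 else 0) - if v = t then 1 else 0 := by
    intro v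
    have := hdiv v
    have h2 : ((∑ d, (if org d = v then w d else 0) : ℤ) : ℚ)
        = (((if v = s then 1 else 0) - if v = t then 1 else 0 : ℤ) : ℚ) := by rw [this]
    push_cast at h2
    exact h2
  rw [← hp]
  have e3 : -∑ d, (w d : ℚ) * U d + ∑ d, ((ψ (σ d) : ℚ) - ψ d) * U d
      = - (∑ d, (if org d = s then (w d : ℚ) else 0)) * U ds
        - (∑ d, (if org d = t then (w d : ℚ) else 0)) * U dt := by
    rw [neg_mul, Finset.sum_mul, Finset.sum_mul, ← Finset.sum_neg_distrib, ← Finset.sum_neg_distrib,
      ← Finset.sum_add_distrib, ← Finset.sum_sub_distrib]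
    apply Finset.sum_congr rfl
    intro d _
    have h1 := hψ d
    by_cases hs : org d = s
    · have ht : org d ≠ t := by rw [hs]; exact hst
      rw [if_pos (Or.inl hs)] at h1
      have h2 : ((ψ (σ d) : ℚ) - ψ d) = 0 := by exact_mod_cast h1
      rw [h2, if_pos hs, if_neg ht, hUs d hs]
      ring
    · by_cases ht : org d = t
      · rw [if_pos (Or.inr ht)] at h1
        have h2 : ((ψ (σ d) : ℚ) - ψ d) = 0 := by exact_mod_cast h1
        rw [h2, if_neg hs, if_pos ht, hUt d ht]
        ring
      · rw [if_neg (by push Not; exact ⟨hs, ht⟩)] at h1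
        have h2 : ((ψ (σ d) : ℚ) - ψ d) = w d := by exact_mod_cast h1
        rw [h2, if_neg hs, if_neg ht]
        ring
  rw [e3, hdiv', hdiv']
  simp [hst, hst.symm]
  ring


section graph

variable {G : MGraph V E}

/-- the darts of an edge of a walk -/
lemma exists_dart (hends : ∀ e, G.ends e = s(org (e, false), org (e, true))) {u v : V} {e : E}
    (h : G.ends e = s(u, v)) : ∃ d : E × Bool, d.1 = e ∧ org d = u ∧ org (dflip E d) = v := by
  rw [hends, Sym2.eq_iff] at h
  rcases h with ⟨h1, h2⟩ | ⟨h1, h2⟩
  · exact ⟨(e, false), rfl, h1, by simpa [dflip] using h2⟩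
  · exact ⟨(e, true), rfl, h2, by simpa [dflip] using h1⟩

/-- a function on the darts that does not change off `W`, `F` is constant along walks that avoid
`W` and `F` -/
lemma const_along (hends : ∀ e, G.ends e = s(org (e, false), org (e, true)))
    (hrot : ∀ x y, σ.SameCycle x y ↔ org x = org y) {α : Type*} (U : E × Bool → α)
    (W : V → Prop) (F : E → Prop)
    (hW : ∀ d, ¬ W (org d) → U (σ d) = U d) (hF : ∀ d : E × Bool, ¬ F d.1 → U (dflip E d) = U d)
    {u v : V} (P : G.Walk u v) (hPW : ∀ x ∈ P.support, ¬ W x) (hPF : ∀ e ∈ P.edges, ¬ F e) :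
    ∀ d d', org d = u → org d' = v → U d = U d' := by
  induction P with
  | nil u =>
    intro d d' hd hd'
    apply const_vertex hrot U u _ hd hd'
    intro x hx
    apply hW
    rw [hx]
    apply hPW
    simp [MGraph.Walk.support]
  | @cons u v' v e h p ih =>
    intro d d' hd hd'
    obtain ⟨d1, h1, h2, h3⟩ := exists_dart hends h
    have e1 : U d = U d1 := by
      apply const_vertex hrot U u _ hd h2
      intro x hx
      apply hW
      rw [hx]
      apply hPW
      simp [MGraph.Walk.support]
    have e2 : U (dflip E d1) = U d1 := by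
      apply hF
      rw [h1]
      apply hPF
      simp [MGraph.Walk.edges]
    rw [e1, ← e2]
    apply ih _ _ (dflip E d1) d' h3 hd'
    · intro x hx
      apply hPW
      simp only [MGraph.Walk.support, List.mem_cons]
      exact Or.inr hx
    · intro x hx
      apply hPF
      simp only [MGraph.Walk.edges, List.mem_cons]
      exact Or.inr hx

end graph

lemma exists_of_not_pairwise {α : Type*} {R : α → α → Prop} : ∀ {l : List α}, ¬ l.Pairwise R →
    ∃ l1 a l2 b l3, l = l1 ++ a :: (l2 ++ b :: l3) ∧ ¬ R a b := by
  intro l
  induction l with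
  | nil => intro h; exact absurd List.Pairwise.nil h
  | cons x l ih =>
    intro h
    rw [List.pairwise_cons] at h
    by_cases h1 : l.Pairwise R
    · have h2 : ¬ ∀ a' ∈ l, R x a' := fun h3 => h ⟨h3, h1⟩
      push Not at h2
      obtain ⟨b, hb, hR⟩ := h2
      obtain ⟨l2, l3, rfl⟩ := List.append_of_mem hb
      exact ⟨[], x, l2, b, l3, rfl, hR⟩
    · obtain ⟨l1, a, l2, b, l3, rfl, hR⟩ := ih h1
      exact ⟨x :: l1, a, l2, b, l3, rfl, hR⟩

/-- two hops through the same vertex -/
def SameV (org : E × Bool → V) (g h : Hop E) : Prop :=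
  ∃ c c', g = .inr c ∧ h = .inr c' ∧ org c.1 = org c'.1

lemma mkF_hi_lo_sum (g : E × Bool → ℚ) (f : FQ σ) :
    ∑ x : El E, (if fc σ x = f then g (hi x) - g (lo σ x) else 0) = 0 := by
  rw [Fintype.sum_sum_type]
  have h1 := sum_fiber_perm ((dflip E).trans σ) (mkF σ) (mkF_face σ) (fun d => g (σ.symm d)) f
  simp only [Equiv.trans_apply, Equiv.symm_apply_apply] at h1
  have h2 : ∑ d, (if fc σ (.inl d) = f then g (hi (.inl d)) - g (lo σ (.inl d)) else 0)
      = ∑ d, (if mkF σ d = f then g (dflip E d) else 0) - ∑ d, (if mkF σ d = f then g d else 0) := by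
    rw [← Finset.sum_sub_distrib]
    apply Finset.sum_congr rfl
    intro d _
    by_cases hf : mkF σ d = f
    · have hf' : fc σ (.inl d) = f := hf
      rw [if_pos hf', if_pos hf, if_pos hf]
      rfl
    · have hf' : ¬ fc σ (.inl d) = f := hf
      rw [if_neg hf', if_neg hf, if_neg hf, sub_zero]
  have h3 : ∑ d, (if fc σ (.inr d) = f then g (hi (.inr d)) - g (lo σ (.inr d)) else 0)
      = ∑ d, (if mkF σ d = f then g d else 0)
        - ∑ d, (if mkF σ d = f then g (σ.symm d) else 0) := by
    rw [← Finset.sum_sub_distrib]
    apply Finset.sum_congr rfl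
    intro d _
    by_cases hf : mkF σ d = f
    · have hf' : fc σ (.inr d) = f := hf
      rw [if_pos hf', if_pos hf, if_pos hf]
      rfl
    · have hf' : ¬ fc σ (.inr d) = f := hf
      rw [if_neg hf', if_neg hf, if_neg hf, sub_zero]
  rw [h2, h3, h1]
  ring

lemma countP_le_one {l : List (Hop E)} {κ : Hop E → El E} {f : El E → FQ σ}
    (hnd : (l.map fun h => f (κ h)).Nodup) (x : El E) :
    l.countP (fun h => decide (κ h = x)) ≤ 1 := by
  induction l with
  | nil => simp
  | cons a l ih =>
    simp only [List.map_cons, List.nodup_cons, List.mem_map, not_exists, not_and] at hnd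
    rw [List.countP_cons]
    by_cases hx : κ a = x
    · have h0 : l.countP (fun h => decide (κ h = x)) = 0 := by
        rw [List.countP_eq_zero]
        intro h hh
        simp only [decide_eq_true_eq]
        intro h1
        exact hnd.1 h hh (by rw [h1, hx])
      simp [h0, hx]
    · simp only [hx, decide_false, Bool.false_eq_true, if_false, add_zero]
      exact ih hnd.2

/-- a simple closed walk has voltage at most one -/
theorem simple_case {G : MGraph V E} (hends : ∀ e, G.ends e = s(org (e, false), org (e, true)))
    (heuler : Nat.card (VQ σ) + Nat.card (FQ σ) = Nat.card E + 2 * Nat.card (CQ σ))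
    (hrot : ∀ x y, σ.SameCycle x y ↔ org x = org y) (hst : s ≠ t)
    (hw : ∀ d, w (dflip E d) = - w d)
    (hdiv : ∀ v, ∑ d, (if org d = v then w d else 0)
      = (if v = s then 1 else 0) - if v = t then 1 else 0)
    (hψ : ∀ d, ψ (σ d) - ψ d = if org d = s ∨ org d = t then 0 else w d)
    (P : G.Walk s t)
    {l : List (Hop E)} {f : FQ σ} (h : IsWalk σ org s t l f f)
    (hsrc : l.Pairwise (fun g g' => src σ g ≠ src σ g'))
    (hver : l.Pairwise (fun g g' => ¬ SameV org g g')) : tvolt w ψ l ≤ 1 := by
  obtain ⟨U, hU, hm⟩ := winding heuler hrot hst hw hdiv hψ h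
  by_contra hcon
  push Not at hcon
  -- darts at s and t
  have hds : ∃ ds, org ds = s := by
    by_contra hno
    push Not at hno
    have := hdiv s
    rw [Finset.sum_eq_zero (fun d _ => if_neg (hno d))] at this
    simp [hst] at this
  have hdt : ∃ dt, org dt = t := by
    by_contra hno
    push Not at hno
    have := hdiv t
    rw [Finset.sum_eq_zero (fun d _ => if_neg (hno d))] at this
    simp [hst.symm] at this
  obtain ⟨ds, hds⟩ := hds
  obtain ⟨dt, hdt⟩ := hdt
  have hm' := hm ds dt hds hdt
  have hge : (2 : ℚ) ≤ U dt - U ds := by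
    rw [← hm']
    exact_mod_cast hcon
  -- sources and targets are distinct
  have hsnd : (l.map (src σ)).Nodup := by
    rw [List.Nodup, List.pairwise_map]
    exact hsrc
  have htnd : (l.map (tgt σ)).Nodup := (h.perm.nodup_iff).mpr hsnd
  have hsinj : ∀ g ∈ l, ∀ g' ∈ l, src σ g = src σ g' → g = g' := fun g hg g' hg' he =>
    List.inj_on_of_nodup_map hsnd hg hg' he
  have htinj : ∀ g ∈ l, ∀ g' ∈ l, tgt σ g = tgt σ g' → g = g' := fun g hg g' hg' he =>
    List.inj_on_of_nodup_map htnd hg hg' he
  have hvinj : ∀ g ∈ l, ∀ g' ∈ l, SameV org g g' → g = g' := by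
    intro g hg g' hg' he
    by_contra hne
    have hsym : Std.Symm (fun g g' : Hop E => ¬ SameV org g g') := by
      constructor
      rintro a b hab ⟨c, c', h1, h2, h3⟩
      exact hab ⟨c', c, h2, h1, h3.symm⟩
    exact List.Pairwise.forall hver hg hg' hne he
  have hcx : ∀ x, l.countP (fun h => decide (xel h = x)) ≤ 1 := fun x =>
    countP_le_one (f := fc σ) (κ := xel) hsnd x
  have hcy : ∀ x, l.countP (fun h => decide (yel h = x)) ≤ 1 := fun x =>
    countP_le_one (f := fc σ) (κ := yel) htnd x
  have hboth : ∀ g ∈ l, ∀ g' ∈ l, xel g = yel g' → cnt l (xel g) = 0 := by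
    intro g hg g' hg' he
    have h1 : 0 < l.countP (fun h => decide (xel h = xel g)) := by
      rw [List.countP_pos_iff]
      exact ⟨g, hg, by simp⟩
    have h2 : 0 < l.countP (fun h => decide (yel h = xel g)) := by
      rw [List.countP_pos_iff]
      exact ⟨g', hg', by simp [he]⟩
    have h3 := hcx (xel g)
    have h4 := hcy (xel g)
    have h5 : l.countP (fun h => decide (xel h = xel g)) = 1 := by omega
    have h6 : l.countP (fun h => decide (yel h = xel g)) = 1 := by omega
    unfold cnt
    rw [h5, h6]
    simp
  have habs : ∀ x, |cnt l x| ≤ 1 := by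
    intro x
    have h3 := hcx x
    have h4 := hcy x
    have h5 : ((l.countP (fun h => decide (xel h = x)) : ℕ) : ℚ) ≤ 1 := by exact_mod_cast h3
    have h6 : ((l.countP (fun h => decide (yel h = x)) : ℕ) : ℚ) ≤ 1 := by exact_mod_cast h4
    have h7 : (0 : ℚ) ≤ (l.countP (fun h => decide (xel h = x)) : ℕ) := by positivity
    have h8 : (0 : ℚ) ≤ (l.countP (fun h => decide (yel h = x)) : ℕ) := by positivity
    unfold cnt
    rw [abs_le]
    constructor <;> linarith
  -- the first hop
  rcases l with _ | ⟨h0, l'⟩
  · simp [tvolt] at hcon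
  set l := h0 :: l' with hl
  have hl0 : h0 ∈ l := by simp [hl]
  -- jumps
  have jump : ∀ g : E × Bool → ℚ, (∀ x, cnt l x = 0 → g (hi x) = g (lo σ x)) → g ds ≠ g dt →
      g (hi (xel h0)) ≠ g (lo σ (xel h0)) := by
    intro g hg hne heq
    apply hne
    set J : El E → ℚ := fun x => g (hi x) - g (lo σ x) with hJ
    have hJ0 : ∀ x, cnt l x = 0 → J x = 0 := by
      intro x hx
      simp only [hJ]
      rw [hg x hx, sub_self]
    -- across a hop
    have hop : ∀ h ∈ l, J (yel h) = - J (xel h) := by
      intro h1 hh1
      rcases h1 with d | c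
      · simp only [hJ, xel, yel, hi, lo, dflip_dflip]
        ring
      · by_cases hc : c.1 = c.2
        · have h2 := hboth _ hh1 _ hh1 (by simp [xel, yel, hc])
          have h3 := hJ0 _ h2
          have h4 : yel (.inr c : Hop E) = xel (.inr c : Hop E) := by simp [xel, yel, hc]
          rw [h4, h3, neg_zero]
        · have hok : org c.1 = org c.2 ∧ org c.1 ≠ s ∧ org c.1 ≠ t := h.ok _ hh1
          -- vertex sum
          have hs0 : ∑ d, (if mkV σ d = mkV σ c.1 then J (.inr d) else 0) = 0 := by
            have h2 := sum_fiber_perm σ (mkV σ) (mkV_rot σ) (fun d => g (σ.symm d)) (mkV σ c.1)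
            simp only [Equiv.symm_apply_apply] at h2
            have h3 : ∑ d, (if mkV σ d = mkV σ c.1 then J (.inr d) else 0)
                = ∑ d, (if mkV σ d = mkV σ c.1 then g d else 0)
                  - ∑ d, (if mkV σ d = mkV σ c.1 then g (σ.symm d) else 0) := by
              rw [← Finset.sum_sub_distrib]
              apply Finset.sum_congr rfl
              intro d _
              simp only [hJ, hi, lo]
              split_ifs <;> simp
            rw [h3, h2, sub_self]
          rw [Fintype.sum_eq_add c.1 c.2 hc] at hs0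
          · rw [if_pos rfl, if_pos (mkV_eq hrot hok.1).symm] at hs0
            simp only [xel, yel]
            linarith
          · rintro d ⟨hd1, hd2⟩
            by_cases hdv : mkV σ d = mkV σ c.1
            · rw [if_pos hdv]
              apply hJ0
              by_contra hne0
              obtain ⟨g', hg', hx'⟩ := mem_of_cnt_ne hne0
              have hok' := h.ok _ hg'
              rcases g' with d' | c'
              · simp [xel, yel] at hx'
              · simp only [xel, yel, Sum.inr.injEq] at hx'
                obtain ⟨h5, -, -⟩ : org c'.1 = org c'.2 ∧ org c'.1 ≠ s ∧ org c'.1 ≠ t := hok'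
                have hod : org d = org c.1 := by
                  have hF : ∀ a b : E × Bool, σ a = b → org a = org b := by
                    rintro a b rfl
                    exact (org_rot hrot a).symm
                  exact congrArg (Quot.lift org hF) hdv
                have h6 : SameV org (.inr c') (.inr c) := by
                  refine ⟨c', c, rfl, rfl, ?_⟩
                  rcases hx' with rfl | rfl
                  · exact hod
                  · rw [h5]; exact hod
                have h7 := hvinj _ hg' _ hh1 h6
                simp only [Sum.inr.injEq] at h7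
                subst h7
                rcases hx' with rfl | rfl
                · exact hd1 rfl
                · exact hd2 rfl
            · rw [if_neg hdv]
    -- across a face
    have face : ∀ h1 ∈ l, ∀ h2 ∈ l, tgt σ h1 = src σ h2 → J (xel h2) = - J (yel h1) := by
      intro h1 hh1 h2 hh2 he
      by_cases hxy : xel h2 = yel h1
      · have h3 := hboth _ hh2 _ hh1 hxy
        have h4 := hJ0 _ h3
        rw [← hxy, h4, neg_zero]
      · have hs0 := mkF_hi_lo_sum g (src σ h2)
        rw [Fintype.sum_eq_add (xel h2) (yel h1) hxy] at hs0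
        · have e1 : fc σ (xel h2) = src σ h2 := rfl
          have e2 : fc σ (yel h1) = src σ h2 := he
          rw [if_pos e1, if_pos e2] at hs0
          simp only [hJ]
          linarith
        · rintro x ⟨hx1, hx2⟩
          by_cases hf : fc σ x = src σ h2
          · rw [if_pos hf]
            apply hJ0
            by_contra hne0
            obtain ⟨g', hg', hx'⟩ := mem_of_cnt_ne hne0
            rcases hx' with hx' | hx'
            · have h5 : src σ g' = src σ h2 := by
                rw [← hf, ← hx']; rfl
              have h6 := hsinj _ hg' _ hh2 h5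
              rw [← hx', h6] at hx1
              exact hx1 rfl
            · have h5 : tgt σ g' = tgt σ h1 := by
                rw [he, ← hf, ← hx']; rfl
              have h6 := htinj _ hg' _ hh1 h5
              rw [← hx', h6] at hx2
              exact hx2 rfl
          · rw [if_neg hf]
    -- the jump is constant along the walk
    have chain : ∀ (l2 : List (Hop E)) (h1 : Hop E) (f2 : FQ σ), h1 ∈ l → (∀ x ∈ l2, x ∈ l) →
        IsWalk σ org s t l2 (tgt σ h1) f2 → ∀ x ∈ l2, J (xel x) = J (xel h1) := by
      intro l2
      induction l2 with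
      | nil => intro h1 f2 _ _ _ x hx; simp at hx
      | cons a l2 ih =>
        intro h1 f2 hh1 hsub hwk x hx
        obtain ⟨-, h3, h4⟩ := hwk
        have ha : a ∈ l := hsub a (by simp)
        have h5 : J (xel a) = J (xel h1) := by
          rw [face h1 hh1 a ha h3.symm, hop h1 hh1, neg_neg]
        rcases List.mem_cons.mp hx with rfl | hx
        · exact h5
        · rw [← h5]
          exact ih a f2 ha (fun y hy => hsub y (by simp [hy])) h4 x hx
    have hJx0 : J (xel h0) = 0 := by
      simp only [hJ]
      rw [heq, sub_self]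
    have hJall : ∀ x ∈ l, J (xel x) = 0 := by
      intro x hx
      rcases List.mem_cons.mp hx with rfl | hx'
      · exact hJx0
      · rw [← hJx0]
        exact chain l' h0 f hl0 (fun y hy => by simp [hl, hy]) h.2.2 x hx'
    have hJzero : ∀ x, J x = 0 := by
      intro x
      by_cases hx : cnt l x = 0
      · exact hJ0 x hx
      · obtain ⟨g', hg', hx'⟩ := mem_of_cnt_ne hx
        rcases hx' with rfl | rfl
        · exact hJall _ hg'
        · rw [hop _ hg', hJall _ hg', neg_zero]
    apply const_along hends hrot g (fun _ => False) (fun _ => False) _ _ P (fun _ _ h => h)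
      (fun _ _ h => h) ds dt hds hdt
    · intro d _
      have h1 := hJzero (.inr (σ d))
      simp only [hJ, hi, lo, Equiv.symm_apply_apply] at h1
      linarith
    · intro d _
      have h1 := hJzero (.inl d)
      simp only [hJ, hi, lo] at h1
      linarith
  -- two thresholds
  have key : ∀ θ : ℚ, U ds < θ → θ ≤ U dt →
      ¬ (θ ≤ U (hi (xel h0)) ↔ θ ≤ U (lo σ (xel h0))) := by
    intro θ h1 h2 hiff
    have h3 := jump (fun d => if θ ≤ U d then 1 else 0) (by
      intro x hx
      have h4 := hU x
      rw [hx] at h4
      have h5 : U (hi x) = U (lo σ x) := by linarith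
      simp only [h5]) (by
      rw [if_neg (by linarith), if_pos h2]
      norm_num)
    apply h3
    simp only [hiff]
  have k1 := key (U ds + 1) (by linarith) (by linarith)
  have k2 := key (U ds + 2) (by linarith) (by linarith)
  have h1 := habs (xel h0)
  rw [hU, abs_le] at h1
  obtain ⟨h2, h3⟩ := h1
  by_cases a1 : U ds + 1 ≤ U (hi (xel h0))
  · have a2 : ¬ U ds + 1 ≤ U (lo σ (xel h0)) := fun h => k1 ⟨fun _ => h, fun _ => a1⟩
    have a3 : ¬ U ds + 2 ≤ U (lo σ (xel h0)) := fun h => a2 (by linarith)
    have a4 : U ds + 2 ≤ U (hi (xel h0)) := by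
      by_contra h
      exact k2 ⟨fun h' => absurd h' h, fun h' => absurd h' a3⟩
    push Not at a2
    linarith
  · have a2 : U ds + 1 ≤ U (lo σ (xel h0)) := by
      by_contra h
      exact k1 ⟨fun h' => absurd h' a1, fun h' => absurd h' h⟩
    have a3 : ¬ U ds + 2 ≤ U (hi (xel h0)) := fun h => a1 (by linarith)
    have a4 : U ds + 2 ≤ U (lo σ (xel h0)) := by
      by_contra h
      exact k2 ⟨fun h' => absurd h' a3, fun h' => absurd h' h⟩
    push Not at a1
    linarith


/-- the vertex of a hop -/
def vtx (org : E × Bool → V) : Hop E → Option V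
  | .inl _ => none
  | .inr c => some (org c.1)

/-- the edge of a hop -/
def edg : Hop E → Option E
  | .inl d => some d.1
  | .inr _ => none

lemma length_vtx (l : List (Hop E)) :
    (l.filterMap (vtx org)).length = (l.map kind).count true := by
  induction l with
  | nil => rfl
  | cons g l ih =>
    rcases g with d | c
    · rw [List.filterMap_cons_none (by rfl), ih]
      simp [kind]
    · rw [List.filterMap_cons_some (b := org c.1) (by rfl), List.length_cons, ih]
      simp [kind]

lemma length_edg (l : List (Hop E)) :
    (l.filterMap edg).length + (l.map kind).count true = l.length := by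
  induction l with
  | nil => rfl
  | cons g l ih =>
    rcases g with d | c
    · have h1 : ((.inl d : Hop E) :: l).filterMap edg = d.1 :: l.filterMap edg :=
        List.filterMap_cons_some (by rfl)
      have h2 : (((.inl d : Hop E) :: l).map kind).count true = (l.map kind).count true := by
        simp [kind]
      rw [h1, h2, List.length_cons, List.length_cons]
      omega
    · have h1 : ((.inr c : Hop E) :: l).filterMap edg = l.filterMap edg :=
        List.filterMap_cons_none (by rfl)
      have h2 : (((.inr c : Hop E) :: l).map kind).count true = (l.map kind).count true + 1 := by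
        simp [kind]
      rw [h1, h2, List.length_cons]
      omega

/-- the vertices and edges of a closed walk of nonzero voltage separate `s` and `t` -/
theorem disc_of_walk {G : MGraph V E} (hends : ∀ e, G.ends e = s(org (e, false), org (e, true)))
    (heuler : Nat.card (VQ σ) + Nat.card (FQ σ) = Nat.card E + 2 * Nat.card (CQ σ))
    (hrot : ∀ x y, σ.SameCycle x y ↔ org x = org y) (hst : s ≠ t)
    (hw : ∀ d, w (dflip E d) = - w d)
    (hdiv : ∀ v, ∑ d, (if org d = v then w d else 0)
      = (if v = s then 1 else 0) - if v = t then 1 else 0)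
    (hψ : ∀ d, ψ (σ d) - ψ d = if org d = s ∨ org d = t then 0 else w d)
    {l : List (Hop E)} {f : FQ σ} (h : IsWalk σ org s t l f f) (hne : tvolt w ψ l ≠ 0) :
    G.IsDisc s t (l.filterMap (vtx org)).toFinset (l.filterMap edg).toFinset := by
  obtain ⟨U, hU, hm⟩ := winding heuler hrot hst hw hdiv hψ h
  have hds : ∃ ds, org ds = s := by
    by_contra hno
    push Not at hno
    have := hdiv s
    rw [Finset.sum_eq_zero (fun d _ => if_neg (hno d))] at this
    simp [hst] at this
  have hdt : ∃ dt, org dt = t := by
    by_contra hno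
    push Not at hno
    have := hdiv t
    rw [Finset.sum_eq_zero (fun d _ => if_neg (hno d))] at this
    simp [hst.symm] at this
  obtain ⟨ds, hds⟩ := hds
  obtain ⟨dt, hdt⟩ := hdt
  have hm' := hm ds dt hds hdt
  have hmemW : ∀ v, v ∈ (l.filterMap (vtx org)).toFinset ↔ ∃ c, .inr c ∈ l ∧ org c.1 = v := by
    intro v
    rw [List.mem_toFinset, List.mem_filterMap]
    constructor
    · rintro ⟨g, hg, hv⟩
      rcases g with d | c
      · simp [vtx] at hv
      · simp only [vtx, Option.some.injEq] at hv
        exact ⟨c, hg, hv⟩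
    · rintro ⟨c, hc, hv⟩
      exact ⟨.inr c, hc, by simp [vtx, hv]⟩
  have hmemF : ∀ e, e ∈ (l.filterMap edg).toFinset ↔ ∃ d, .inl d ∈ l ∧ d.1 = e := by
    intro e
    rw [List.mem_toFinset, List.mem_filterMap]
    constructor
    · rintro ⟨g, hg, hv⟩
      rcases g with d | c
      · simp only [edg, Option.some.injEq] at hv
        exact ⟨d, hg, hv⟩
      · simp [edg] at hv
    · rintro ⟨d, hd, hv⟩
      exact ⟨.inl d, hd, by simp [edg, hv]⟩
  refine ⟨?_, ?_, ?_⟩
  · rw [hmemW]
    rintro ⟨c, hc, hv⟩
    have hok : org c.1 = org c.2 ∧ org c.1 ≠ s ∧ org c.1 ≠ t := h.ok _ hc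
    exact hok.2.1 hv
  · rw [hmemW]
    rintro ⟨c, hc, hv⟩
    have hok : org c.1 = org c.2 ∧ org c.1 ≠ s ∧ org c.1 ≠ t := h.ok _ hc
    exact hok.2.2 hv
  · intro P _
    by_contra hcon
    push Not at hcon
    obtain ⟨h1, h2⟩ := hcon
    apply hne
    have h3 : U ds = U dt := by
      apply const_along hends hrot U (fun v => v ∈ (l.filterMap (vtx org)).toFinset)
        (fun e => e ∈ (l.filterMap edg).toFinset) _ _ P h1 h2 ds dt hds hdt
      · intro d hd
        have h4 := hU (.inr (σ d))
        simp only [hi, lo, Equiv.symm_apply_apply] at h4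
        have h5 : cnt l (.inr (σ d)) = 0 := by
          by_contra hne0
          obtain ⟨g, hg, hx⟩ := mem_of_cnt_ne hne0
          apply hd
          rw [hmemW]
          have hok := h.ok _ hg
          rcases g with d' | c
          · simp [xel, yel] at hx
          · simp only [xel, yel, Sum.inr.injEq] at hx
            obtain ⟨h6, -, -⟩ : org c.1 = org c.2 ∧ org c.1 ≠ s ∧ org c.1 ≠ t := hok
            refine ⟨c, hg, ?_⟩
            rcases hx with hx | hx
            · rw [hx, org_rot hrot]
            · rw [h6, hx, org_rot hrot]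
        linarith
      · intro d hd
        have h4 := hU (.inl d)
        simp only [hi, lo] at h4
        have h5 : cnt l (.inl d) = 0 := by
          by_contra hne0
          obtain ⟨g, hg, hx⟩ := mem_of_cnt_ne hne0
          apply hd
          rw [hmemF]
          rcases g with d' | c
          · simp only [xel, yel, Sum.inl.injEq] at hx
            refine ⟨d', hg, ?_⟩
            rcases hx with rfl | rfl
            · rfl
            · simp [dflip]
          · simp [xel, yel] at hx
        linarith
    have h4 : (tvolt w ψ l : ℚ) = 0 := by rw [hm', h3, sub_self]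
    exact_mod_cast h4

/-- the gain lemma -/
theorem gain {G : MGraph V E} (hends : ∀ e, G.ends e = s(org (e, false), org (e, true)))
    (heuler : Nat.card (VQ σ) + Nat.card (FQ σ) = Nat.card E + 2 * Nat.card (CQ σ))
    (hrot : ∀ x y, σ.SameCycle x y ↔ org x = org y) (hst : s ≠ t)
    (hw : ∀ d, w (dflip E d) = - w d)
    (hdiv : ∀ v, ∑ d, (if org d = v then w d else 0)
      = (if v = s then 1 else 0) - if v = t then 1 else 0)
    (hψ : ∀ d, ψ (σ d) - ψ d = if org d = s ∨ org d = t then 0 else w d)
    (P : G.Walk s t) {k m : ℕ} (hm : 1 ≤ m)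
    (hbound : ∀ (W : Finset V) (F : Finset E), G.IsDisc s t W F → W.card ≤ k →
      k + m ≤ W.card + F.card) :
    ∀ (n : ℕ) (l : List (Hop E)), l.length = n → ∀ f, IsWalk σ org s t l f f → ∀ z : ℤ,
      z + ((k + m : ℕ) : ℤ) * tvolt w ψ l ≤ T (k + 1) (k + m) (l.map kind) z := by
  have hp : 0 < k + 1 := by omega
  have hpN : k + 1 ≤ k + m := by omega
  intro n
  induction n using Nat.strong_induction_on with
  | _ n ih =>
    intro l hl f h z
    by_cases hv : tvolt w ψ l ≤ 0
    · have h1 := le_T hp hpN (l.map kind) z
      have h2 : ((k + m : ℕ) : ℤ) * tvolt w ψ l ≤ 0 :=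
        mul_nonpos_of_nonneg_of_nonpos (by positivity) hv
      linarith
    by_cases hsrc : l.Pairwise (fun g g' => src σ g ≠ src σ g')
    · by_cases hver : l.Pairwise (fun g g' => ¬ SameV org g g')
      · -- the simple case
        have h1 := simple_case hends heuler hrot hst hw hdiv hψ P h hsrc hver
        have h2 : tvolt w ψ l = 1 := by omega
        rw [h2, mul_one]
        by_cases hc : k + 1 ≤ (l.map kind).count true
        · exact add_le_T_of_count hp hpN _ _ hc
        · have h3 := disc_of_walk hends heuler hrot hst hw hdiv hψ h (by omega)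
          have h4 : (l.filterMap (vtx org)).toFinset.card ≤ (l.map kind).count true := by
            rw [← length_vtx (org := org)]
            exact List.toFinset_card_le _
          have h5 : (l.filterMap edg).toFinset.card ≤ (l.filterMap edg).length :=
            List.toFinset_card_le _
          have h6 := length_edg l
          have h7 := hbound _ _ h3 (by omega)
          have h8 := add_length_le_T hp hpN (l.map kind) z
          rw [List.length_map] at h8
          have h9 : ((k + m : ℕ) : ℤ) ≤ l.length := by
            exact_mod_cast (by omega : k + m ≤ l.length)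
          linarith
      · -- two hops through one vertex
        obtain ⟨l1, a, l2, b, l3, hl', hR⟩ := exists_of_not_pairwise hver
        push Not at hR
        obtain ⟨c, c', rfl, rfl, hcc⟩ := hR
        subst hl'
        obtain ⟨f1, w1, w2⟩ := h.split
        obtain ⟨ok1, s1, w3⟩ := w2
        obtain ⟨f2, w4, w5⟩ := w3.split
        obtain ⟨ok2, s2, w6⟩ := w5
        have ok1' : org c.1 = org c.2 ∧ org c.1 ≠ s ∧ org c.1 ≠ t := ok1
        have ok2' : org c'.1 = org c'.2 ∧ org c'.1 ≠ s ∧ org c'.1 ≠ t := ok2
        -- W'
        have wW : IsWalk σ org s t (l1 ++ .inr (c.1, c'.2) :: l3) f f := by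
          apply w1.append
          refine ⟨⟨?_, ok1'.2⟩, s1, w6⟩
          show org c.1 = org c'.2
          rw [hcc, ok2'.1]
        have wS : IsWalk σ org s t (l2 ++ [.inr (c'.1, c.2)]) (tgt σ (.inr c)) (tgt σ (.inr c)) := by
          apply w4.append
          refine ⟨⟨?_, ok2'.2⟩, s2, rfl⟩
          show org c'.1 = org c.2
          rw [← hcc, ok1'.1]
        have i1 := ih (l1 ++ (.inr (c.1, c'.2) : Hop E) :: l3).length (by
          rw [← hl]; simp only [List.length_append, List.length_cons]; omega) _ rfl f wW z
        have i2 := ih (l2 ++ [(.inr (c'.1, c.2) : Hop E)]).length (by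
          rw [← hl]; simp only [List.length_append, List.length_cons, List.length_nil]; omega) _ rfl _ wS
          (step (k + 1) (k + m) true (T (k + 1) (k + m) (l1.map kind) z))
        simp only [List.map_append, List.map_cons, List.map_nil, T_append, T_cons, T_nil, kind,
          tvolt_append, tvolt_cons, volt] at i1 i2 ⊢
        have hnil : tvolt w ψ ([] : List (Hop E)) = 0 := rfl
        rw [hnil] at i2
        have i3 := T_mono hp hpN (l3.map kind) i2
        rw [T_add hp hpN] at i3
        refine le_trans ?_ i3
        refine le_trans ?_ (add_le_add_left i1 _)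
        apply le_of_eq
        ring
    · -- a repeated face
      obtain ⟨l1, a, l2, b, l3, hl', hR⟩ := exists_of_not_pairwise hsrc
      push Not at hR
      subst hl'
      obtain ⟨f1, w1, w2⟩ := h.split
      obtain ⟨ok1, s1, w3⟩ := w2
      obtain ⟨f2, w4, w5⟩ := w3.split
      obtain ⟨ok2, s2, w6⟩ := w5
      have hf : f1 = f2 := by rw [← s1, ← s2, hR]
      have wW : IsWalk σ org s t (l1 ++ b :: l3) f f :=
        w1.append ⟨ok2, by rw [s2, hf], w6⟩
      have wS : IsWalk σ org s t (a :: l2) f1 f1 := ⟨ok1, s1, by rw [hf]; exact w4⟩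
      have i1 := ih (l1 ++ b :: l3).length (by
        rw [← hl]; simp only [List.length_append, List.length_cons]; omega) _ rfl f wW z
      have i2 := ih (a :: l2).length (by
        rw [← hl]; simp only [List.length_append, List.length_cons]; omega) _ rfl _ wS
        (T (k + 1) (k + m) (l1.map kind) z)
      simp only [List.map_append, List.map_cons, T_append, T_cons, tvolt_append,
        tvolt_cons] at i1 i2 ⊢
      have i3 := T_mono hp hpN (l3.map kind) (step_mono hp hpN (kind b) i2)
      rw [step_add hp hpN, T_add hp hpN] at i3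
      refine le_trans ?_ i3
      refine le_trans ?_ (add_le_add_left i1 _)
      apply le_of_eq
      ring

end BHPlanar
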