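import Mathlib
import Pool.Agent.Lib.MP_3940ed_co.Gain

/-!
# The potential on the faces and the classes of darts
-/

namespace BHPlanar

set_option autoImplicit false
set_option linter.unusedSectionVars false
set_option linter.unusedSimpArgs false
set_option linter.unusedVariables false

open BeinekeHarary Classical

variable {V E : Type*} [Fintype E] {σ : Equiv.Perm (E × Bool)} {org : E × Bool → V} {s t : V}
  {w ψ : E × Bool → ℤ}

/-- the potential on the faces -/
theorem exists_Z {p N : ℕ} (hp : 0 < p) (hpN : p ≤ N)
    (hgain : ∀ (l : List (Hop E)) (f : FQ σ), IsWalk σ org s t l f f → ∀ z : ℤ,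
      z + (N : ℤ) * tvolt w ψ l ≤ T p N (l.map kind) z) :
    ∃ Z : FQ σ → ℤ, ∀ h, ok org s t h →
      Z (tgt σ h) + N * volt w ψ h ≤ step p N (kind h) (Z (src σ h)) := by
  -- a bound for the voltages
  obtain ⟨M, hM0, hM⟩ : ∃ M : ℤ, 0 ≤ M ∧ ∀ h, volt w ψ h ≤ M := by
    obtain ⟨M, hM⟩ := (Set.finite_range (volt w ψ)).bddAbove
    exact ⟨max M 0, le_max_right _ _, fun h => (hM ⟨h, rfl⟩).trans (le_max_left _ _)⟩
  have htv : ∀ l : List (Hop E), tvolt w ψ l ≤ M * l.length := by
    intro l
    induction l with
    | nil => simp [tvolt]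
    | cons a l ih =>
      rw [tvolt_cons, List.length_cons]
      push_cast
      have := hM a
      linarith
  have hN : (0 : ℤ) ≤ N := by positivity
  -- lower bound
  have hlow : ∀ (n : ℕ) (l : List (Hop E)), l.length = n → ∀ f f', IsWalk σ org s t l f f' →
      -((N : ℤ) * (M * Fintype.card (FQ σ))) ≤ T p N (l.map kind) 0 - N * tvolt w ψ l := by
    intro n
    induction n using Nat.strong_induction_on with
    | _ n ih =>
      intro l hl f f' h
      by_cases hsrc : l.Pairwise (fun g g' => src σ g ≠ src σ g')
      · have hnd : (l.map (src σ)).Nodup := by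
          rw [List.Nodup, List.pairwise_map]
          exact hsrc
        have h1 := hnd.length_le_card
        rw [List.length_map] at h1
        have h2 := le_T hp hpN (l.map kind) 0
        have h3 : tvolt w ψ l ≤ M * Fintype.card (FQ σ) := by
          refine (htv l).trans (mul_le_mul_of_nonneg_left ?_ hM0)
          exact_mod_cast h1
        have h4 := mul_le_mul_of_nonneg_left h3 hN
        linarith
      · obtain ⟨l1, a, l2, b, l3, hl', hR⟩ := exists_of_not_pairwise hsrc
        push Not at hR
        subst hl'
        obtain ⟨f1, w1, w2⟩ := h.split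
        obtain ⟨ok1, s1, w3⟩ := w2
        obtain ⟨f2, w4, w5⟩ := w3.split
        obtain ⟨ok2, s2, w6⟩ := w5
        have hf : f1 = f2 := by rw [← s1, ← s2, hR]
        have wW : IsWalk σ org s t (l1 ++ b :: l3) f f' :=
          w1.append ⟨ok2, by rw [s2, hf], w6⟩
        have wS : IsWalk σ org s t (a :: l2) f1 f1 := ⟨ok1, s1, by rw [hf]; exact w4⟩
        have i1 := ih (l1 ++ b :: l3).length (by
          rw [← hl]; simp only [List.length_append, List.length_cons]; omega) _ rfl f f' wW
        have i2 := hgain _ _ wS (T p N (l1.map kind) 0)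
        simp only [List.map_append, List.map_cons, T_append, T_cons, tvolt_append,
          tvolt_cons] at i1 i2 ⊢
        have i3 := T_mono hp hpN (l3.map kind) (step_mono hp hpN (kind b) i2)
        rw [step_add hp hpN, T_add hp hpN] at i3
        linarith
  -- definition
  set S : FQ σ → Set ℤ := fun f => {z | ∃ f0 l, IsWalk σ org s t l f0 f ∧
    z = T p N (l.map kind) 0 - N * tvolt w ψ l} with hS
  have hbdd : ∀ f, BddBelow (S f) := by
    intro f
    refine ⟨-((N : ℤ) * (M * Fintype.card (FQ σ))), ?_⟩
    rintro z ⟨f0, l, hl, rfl⟩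
    exact hlow _ l rfl f0 f hl
  have hne : ∀ f, (S f).Nonempty := fun f => ⟨_, f, [], rfl, rfl⟩
  refine ⟨fun f => sInf (S f), fun h hok => ?_⟩
  obtain ⟨f0, l, hl, hz⟩ := Int.csInf_mem (hne (src σ h)) (hbdd (src σ h))
  have h1 : T p N ((l ++ [h]).map kind) 0 - N * tvolt w ψ (l ++ [h]) ∈ S (tgt σ h) :=
    ⟨f0, l ++ [h], hl.append ⟨hok, rfl, rfl⟩, rfl⟩
  have h2 := csInf_le (hbdd (tgt σ h)) h1
  have h3 : step p N (kind h) (sInf (S (src σ h)))
      = step p N (kind h) (T p N (l.map kind) 0) - N * tvolt w ψ l := by
    rw [hz, show T p N (l.map kind) 0 - (N : ℤ) * tvolt w ψ l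
      = T p N (l.map kind) 0 + N * (- tvolt w ψ l) by ring, step_add hp hpN]
    ring
  rw [h3]
  simp only [List.map_append, List.map_cons, List.map_nil, T_append, T_cons, T_nil, tvolt_append,
    tvolt_cons] at h2
  have hnil : tvolt w ψ ([] : List (Hop E)) = 0 := rfl
  rw [hnil] at h2
  linarith

/-- the corner potential of a flow -/
theorem exists_psi (hrot : ∀ x y, σ.SameCycle x y ↔ org x = org y) (b : E × Bool → ℤ)
    (hb : ∀ v, ∑ d, (if org d = v then b d else 0) = 0) :
    ∃ ψ : E × Bool → ℤ, ∀ d, ψ (σ d) - ψ d = b d := by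
  set L := orderOf σ with hL
  have hL0 : 0 < L := orderOf_pos σ
  have hpow : σ ^ L = 1 := pow_orderOf_eq_one σ
  have horg : ∀ (i : ℕ) d, org ((σ ^ i) d) = org d := by
    intro i
    induction i with
    | zero => intro d; simp
    | succ i ih => intro d; rw [pow_succ', Equiv.Perm.mul_apply, org_rot hrot, ih]
  have hshift : ∀ (i : ℕ) d, (σ ^ i) (σ d) = (σ ^ (i + 1)) d := by
    intro i d
    rw [pow_succ, Equiv.Perm.mul_apply]
  set S : E × Bool → ℤ := fun d => ∑ i ∈ Finset.range L, b ((σ ^ i) d) with hS
  have hSrot : ∀ d, S (σ d) = S d := by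
    intro d
    simp only [hS, hshift]
    have h1 := Finset.sum_range_succ (fun i => b ((σ ^ i) d)) L
    have h2 := Finset.sum_range_succ' (fun i => b ((σ ^ i) d)) L
    rw [h1, hpow] at h2
    simp only [pow_zero, Equiv.Perm.one_apply] at h2
    linarith
  have hS0 : ∀ d, S d = 0 := by
    intro d
    have h1 : ∀ d', org d' = org d → S d' = S d := fun d' hd' =>
      const_vertex hrot S (org d) (fun x _ => hSrot x) hd' rfl
    have h2 : ∑ d', (if org d' = org d then S d' else 0) = 0 := by
      have h3 : ∑ d', (if org d' = org d then S d' else 0)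
          = ∑ d', ∑ i ∈ Finset.range L, (if org d' = org d then b ((σ ^ i) d') else 0) := by
        apply Finset.sum_congr rfl
        intro d' _
        by_cases h : org d' = org d
        · simp only [h, if_true, hS]
        · simp only [h, if_false, Finset.sum_const_zero]
      rw [h3, Finset.sum_comm]
      apply Finset.sum_eq_zero
      intro i _
      refine Eq.trans ?_ (hb (org d))
      rw [← Equiv.sum_comp (σ ^ i) (fun d' => if org d' = org d then b d' else 0)]
      apply Finset.sum_congr rfl
      intro d' _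
      rw [horg]
    have h4 : ∑ d', (if org d' = org d then S d' else 0)
        = ∑ d', (if org d' = org d then S d else 0) := by
      apply Finset.sum_congr rfl
      intro d' _
      by_cases h : org d' = org d
      · rw [if_pos h, if_pos h, h1 d' h]
      · rw [if_neg h, if_neg h]
    rw [h4, ← Finset.sum_filter, Finset.sum_const, smul_eq_zero] at h2
    rcases h2 with h2 | h2
    · exfalso
      rw [Finset.card_eq_zero] at h2
      have : d ∈ Finset.univ.filter (fun d' => org d' = org d) := by simp
      rw [h2] at this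
      simp at this
    · exact h2
  -- the rational potential
  set φ : E × Bool → ℚ := fun d => (∑ i ∈ Finset.range L, (i : ℚ) * b ((σ ^ i) d)) / L with hφ
  have hφrot : ∀ d, φ (σ d) = φ d + b d := by
    intro d
    have hLq : (L : ℚ) ≠ 0 := by positivity
    have h1 : ∑ i ∈ Finset.range L, (i : ℚ) * b ((σ ^ i) (σ d))
        = ∑ i ∈ Finset.range L, (i : ℚ) * b ((σ ^ i) d) + L * b d := by
      have h2 := Finset.sum_range_sub (fun i => (i : ℚ) * b ((σ ^ i) d)) L
      simp only [hpow, Equiv.Perm.one_apply, Nat.cast_zero, zero_mul, sub_zero] at h2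
      have h3 : ∑ i ∈ Finset.range L, ((b ((σ ^ (i + 1)) d) : ℤ) : ℚ) = 0 := by
        have h4 : ∑ i ∈ Finset.range L, b ((σ ^ (i + 1)) d) = 0 := by
          have := hS0 (σ d)
          simp only [hS, hshift] at this
          exact this
        exact_mod_cast h4
      rw [← h2, Finset.sum_sub_distrib]
      simp only [hshift]
      have h5 : ∑ i ∈ Finset.range L, ((i + 1 : ℕ) : ℚ) * b ((σ ^ (i + 1)) d)
          = ∑ i ∈ Finset.range L, (i : ℚ) * b ((σ ^ (i + 1)) d) := by
        have : ∑ i ∈ Finset.range L, ((i + 1 : ℕ) : ℚ) * b ((σ ^ (i + 1)) d)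
            = ∑ i ∈ Finset.range L, (i : ℚ) * b ((σ ^ (i + 1)) d)
              + ∑ i ∈ Finset.range L, ((b ((σ ^ (i + 1)) d) : ℤ) : ℚ) := by
          rw [← Finset.sum_add_distrib]
          apply Finset.sum_congr rfl
          intro i _
          push_cast
          ring
        rw [this, h3, add_zero]
      rw [h5]
      ring
    simp only [hφ]
    rw [h1]
    field_simp
  refine ⟨fun d => ⌊φ d⌋, fun d => ?_⟩
  simp only [hφrot, Int.floor_add_intCast]
  ring

/-- a walk gives a unit flow -/
lemma exists_flow {G : MGraph V E} (hends : ∀ e, G.ends e = s(org (e, false), org (e, true)))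
    {u v : V} (P : G.Walk u v) : ∃ w : E × Bool → ℤ, (∀ d, w (dflip E d) = - w d) ∧
      ∀ x, ∑ d, (if org d = x then w d else 0) = (if x = u then 1 else 0) - if x = v then 1 else 0 := by
  induction P with
  | nil u => exact ⟨fun _ => 0, by simp, by simp⟩
  | @cons u v' v e h p ih =>
    obtain ⟨w, h1, h2⟩ := ih
    obtain ⟨d1, -, h4, h5⟩ := exists_dart hends h
    refine ⟨fun d => w d + ((if d = d1 then 1 else 0) - if d = dflip E d1 then 1 else 0), ?_, ?_⟩
    · intro d
      have e1 : (dflip E d = d1) ↔ (d = dflip E d1) := by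
        constructor
        · rintro rfl; exact (dflip_dflip d).symm
        · rintro rfl; exact dflip_dflip d1
      have e2 : (dflip E d = dflip E d1) ↔ (d = d1) := (dflip E).injective.eq_iff
      simp only [e1, e2, h1]
      ring
    · intro x
      have e3 : ∀ d, (if org d = x then w d + ((if d = d1 then 1 else 0)
          - if d = dflip E d1 then 1 else 0) else 0)
          = (if org d = x then w d else 0) + ((if d = d1 then (if org d1 = x then 1 else 0) else 0)
            - if d = dflip E d1 then (if org (dflip E d1) = x then (1 : ℤ) else 0) else 0) := by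
        intro d
        by_cases hd1 : d = d1
        · subst hd1
          by_cases hx : org d = x
          · simp [hx, (dflip_ne d).symm]
          · simp [hx, (dflip_ne d).symm]
        · by_cases hd2 : d = dflip E d1
          · subst hd2
            by_cases hx : org (dflip E d1) = x
            · simp [hx, dflip_ne]
            · simp [hx, dflip_ne]
          · simp [hd1, hd2]
      simp only [e3]
      rw [Finset.sum_add_distrib, Finset.sum_sub_distrib, h2, Finset.sum_ite_eq', Finset.sum_ite_eq',
        if_pos (Finset.mem_univ _), if_pos (Finset.mem_univ _), h4, h5]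
      simp only [eq_comm (a := x)]
      ring

/-- a unit flow contains a walk -/
lemma exists_walk [Fintype V] {G : MGraph V E}
    (hends : ∀ e, G.ends e = s(org (e, false), org (e, true))) (hst : s ≠ t)
    (u : E × Bool → ℤ) (hu : ∀ d, u (dflip E d) = - u d)
    (hdiv : ∀ x, ∑ d, (if org d = x then u d else 0)
      = (if x = s then 1 else 0) - if x = t then 1 else 0) :
    ∃ P : G.Walk s t, ∀ e ∈ P.edges, u (e, false) ≠ 0 := by
  set A : V → Prop := fun v => ∃ P : G.Walk v t, ∀ e ∈ P.edges, u (e, false) ≠ 0 with hA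
  by_contra hcon
  have hsA : ¬ A s := hcon
  have htA : A t := ⟨.nil t, by simp [MGraph.Walk.edges]⟩
  have hne : ∀ d : E × Bool, u d ≠ 0 → u (d.1, false) ≠ 0 := by
    rintro ⟨e, b⟩ h
    cases b
    · exact h
    · intro h0
      apply h
      have := hu (e, false)
      rw [h0] at this
      simpa [dflip] using this
  have hstep : ∀ d, u d ≠ 0 → A (org (dflip E d)) → A (org d) := by
    rintro d hd ⟨P, hP⟩
    have he : G.ends d.1 = s(org d, org (dflip E d)) := by
      rw [hends]
      obtain ⟨e, b⟩ := d
      cases b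
      · simp [dflip]
      · simp [dflip, Sym2.eq_swap]
    refine ⟨.cons (org d) d.1 he P, ?_⟩
    intro e hed
    simp only [MGraph.Walk.edges, List.mem_cons] at hed
    rcases hed with rfl | hed
    · exact hne d hd
    · exact hP e hed
  have hiff : ∀ d, u d ≠ 0 → (A (org (dflip E d)) ↔ A (org d)) := by
    intro d hd
    refine ⟨hstep d hd, ?_⟩
    intro h
    apply hstep (dflip E d)
    · rw [hu]; simpa using hd
    · rwa [dflip_dflip]
  have h1 : ∑ d, (if A (org d) then u d else 0) = 0 := by
    have h2 : ∑ d, (if A (org d) then u d else 0) = - ∑ d, (if A (org d) then u d else 0) := by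
      conv_lhs => rw [← Equiv.sum_comp (dflip E) (fun d => if A (org d) then u d else 0)]
      rw [← Finset.sum_neg_distrib]
      apply Finset.sum_congr rfl
      intro d _
      rw [hu]
      by_cases hd : u d = 0
      · simp [hd]
      · have h3 := hiff d hd
        by_cases h4 : A (org d)
        · rw [if_pos (h3.mpr h4), if_pos h4]
        · rw [if_neg (fun h => h4 (h3.mp h)), if_neg h4, neg_zero]
    omega
  have h2 : ∑ d, (if A (org d) then u d else 0) = -1 := by
    have h3 : ∀ d, (if A (org d) then u d else 0)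
        = ∑ x : V, if A x then (if org d = x then u d else 0) else 0 := by
      intro d
      have h4 : ∀ x, (if A x then (if org d = x then u d else 0) else 0)
          = if org d = x then (if A (org d) then u d else 0) else 0 := by
        intro x
        by_cases hx : org d = x
        · subst hx; simp
        · simp [hx]
      simp only [h4, Finset.sum_ite_eq, Finset.mem_univ, if_true]
    simp only [h3]
    rw [Finset.sum_comm]
    have h5 : ∀ x : V, ∑ d, (if A x then (if org d = x then u d else 0) else 0)
        = if x = t then -1 else 0 := by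
      intro x
      by_cases hx : A x
      · simp only [hx, if_true]
        rw [hdiv]
        have hxs : x ≠ s := by rintro rfl; exact hsA hx
        by_cases hxt : x = t
        · simp [hxs, hxt, hst.symm]
        · simp [hxs, hxt]
      · simp only [hx, if_false, Finset.sum_const_zero]
        rw [if_neg]
        rintro rfl
        exact hx htA
    simp only [h5, Finset.sum_ite_eq', Finset.mem_univ, if_true]
  omega

/-- the class counting function -/
def H (N : ℕ) (i z : ℤ) : ℤ := (z - i + N - 1) / N

lemma H_add {N : ℕ} (hN : 0 < N) (i z m : ℤ) : H N i (z + N * m) = H N i z + m := by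
  have hN' : (N : ℤ) ≠ 0 := by positivity
  unfold H
  rw [show z + N * m - i + N - 1 = (z - i + N - 1) + N * m by ring,
    Int.add_mul_ediv_left _ _ hN']

lemma H_succ {N : ℕ} (hN : 0 < N) (i z : ℤ) (h : H N i (z + 1) ≠ H N i z) : (N : ℤ) ∣ z - i := by
  have hNz : (0 : ℤ) < N := by exact_mod_cast hN
  unfold H at h
  by_contra hd
  apply h
  set c := (z - i) / (N : ℤ) with hc
  set r := (z - i) % (N : ℤ) with hr
  have hz : z - i = N * c + r := (Int.mul_ediv_add_emod (z - i) N).symm
  have hr0 : 0 ≤ r := Int.emod_nonneg _ hNz.ne'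
  have hrN : r < N := Int.emod_lt_of_pos _ hNz
  have hr1 : r ≠ 0 := fun h0 => hd (Int.dvd_of_emod_eq_zero h0)
  have e1 : (z + 1 - i + N - 1) / (N : ℤ) = c + 1 := by
    rw [show z + 1 - i + N - 1 = r + N * (c + 1) by linarith,
      Int.add_mul_ediv_left _ _ hNz.ne', Int.ediv_eq_zero_of_lt hr0 hrN]
    ring
  have e2 : (z - i + N - 1) / (N : ℤ) = c + 1 := by
    rw [show z - i + N - 1 = (r - 1) + N * (c + 1) by linarith,
      Int.add_mul_ediv_left _ _ hNz.ne', Int.ediv_eq_zero_of_lt (by omega) (by omega)]
    ring
  rw [e1, e2]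

lemma H_adj {N : ℕ} (hN : 0 < N) {i a b : ℤ} (h1 : a ≤ b + 1) (h2 : b ≤ a + 1)
    (h : H N i a ≠ H N i b) :
    (a = b + 1 ∧ (N : ℤ) ∣ b - i) ∨ (b = a + 1 ∧ (N : ℤ) ∣ a - i) := by
  have h3 : a ≠ b := by rintro rfl; exact h rfl
  rcases lt_or_gt_of_ne h3 with h4 | h4
  · right
    have h5 : b = a + 1 := by omega
    refine ⟨h5, H_succ hN i a ?_⟩
    rw [← h5]
    exact h.symm
  · left
    have h5 : a = b + 1 := by omega
    refine ⟨h5, H_succ hN i b ?_⟩
    rw [← h5]
    exact h

lemma X_succ_of {p N : ℕ} (hpN : p ≤ N) {i z : ℤ} (hi0 : 0 ≤ i) (hip : i < p)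
    (h : (N : ℤ) ∣ z - i) : X p N (z + 1) = X p N z + 1 := by
  have hpz : (p : ℤ) ≤ N := by exact_mod_cast hpN
  have hNz : (0 : ℤ) < N := by omega
  have hN : 0 < N := by exact_mod_cast hNz
  obtain ⟨c, hc⟩ := h
  have e1 : z = i + N * c := by linarith
  rw [e1, show i + N * c + 1 = (i + 1) + N * c by ring, X_add hN, X_add hN]
  have h1 : X p N i = i := by
    unfold X
    rw [Int.ediv_eq_zero_of_lt hi0 (by omega), Int.emod_eq_of_lt hi0 (by omega),
      min_eq_left hip.le]
    ring
  have h2 : X p N (i + 1) = i + 1 := by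
    by_cases h3 : i + 1 < N
    · unfold X
      rw [Int.ediv_eq_zero_of_lt (by omega) h3, Int.emod_eq_of_lt (by omega) h3,
        min_eq_left (by omega)]
      ring
    · have h4 : i + 1 = N := by omega
      have h5 : (p : ℤ) = N := by omega
      unfold X
      rw [h4, Int.ediv_self hNz.ne', Int.emod_self, h5, min_eq_left hNz.le]
      ring
  rw [h1, h2]
  ring

lemma mem_edges_of_mem_support {G : MGraph V E} {u v : V} (P : G.Walk u v) :
    ∀ x ∈ P.support, x ≠ v → ∃ e ∈ P.edges, x ∈ G.ends e := by
  induction P with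
  | nil u =>
    intro x hx hne
    simp only [MGraph.Walk.support, List.mem_singleton] at hx
    exact absurd hx hne
  | @cons u v' v e h p ih =>
    intro x hx hne
    simp only [MGraph.Walk.support, List.mem_cons] at hx
    rcases hx with rfl | hx
    · exact ⟨e, by simp [MGraph.Walk.edges], by rw [h]; simp⟩
    · obtain ⟨e', h1, h2⟩ := ih x hx hne
      exact ⟨e', by simp [MGraph.Walk.edges, h1], h2⟩

end BHPlanar
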